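import Pool.Agent.H30S.Core

set_option autoImplicit false

open Finset Polynomial

namespace Pool.Agent.H30S

/-- the threshold for the degree as a function of the parameter -/
noncomputable def thr (M : ℕ) : ℝ := 4 / Real.pi ^ 2 * ((M : ℝ) ^ 10 + 3 * (M : ℝ) ^ 8)

lemma thr_ge (M : ℕ) : (M : ℝ) ≤ thr M := by
  rcases Nat.eq_zero_or_pos M with rfl | h
  · simp [thr]
  · have hM : (1 : ℝ) ≤ M := by exact_mod_cast h
    have h1 : (2 : ℝ) / 5 ≤ 4 / Real.pi ^ 2 := by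
      rw [div_le_div_iff₀ (by norm_num) (by have := Real.pi_pos; positivity)]
      have := pi_sq_le
      linarith
    have h2 : (M : ℝ) ≤ (M : ℝ) ^ 10 := le_self_pow₀ hM (by norm_num)
    have h3 : (M : ℝ) ≤ (M : ℝ) ^ 8 := le_self_pow₀ hM (by norm_num)
    unfold thr
    have h4 : (2 : ℝ) / 5 * ((M : ℝ) ^ 10 + 3 * (M : ℝ) ^ 8) ≤
        4 / Real.pi ^ 2 * ((M : ℝ) ^ 10 + 3 * (M : ℝ) ^ 8) :=
      mul_le_mul_of_nonneg_right h1 (by positivity)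
    linarith

lemma thr_mono {a b : ℕ} (h : a ≤ b) : thr a ≤ thr b := by
  unfold thr
  have : (a : ℝ) ≤ b := by exact_mod_cast h
  have hpi := Real.pi_pos
  gcongr

lemma thr_le_sq (M : ℕ) : thr M ≤ (2 / Real.pi * ((M : ℝ) ^ 5 + 2 * (M : ℝ) ^ 3)) ^ 2 := by
  unfold thr
  have h1 : (2 / Real.pi * ((M : ℝ) ^ 5 + 2 * (M : ℝ) ^ 3)) ^ 2 =
      4 / Real.pi ^ 2 * ((M : ℝ) ^ 10 + 4 * (M : ℝ) ^ 8 + 4 * (M : ℝ) ^ 6) := by ring
  rw [h1]
  have hpi := Real.pi_pos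
  apply mul_le_mul_of_nonneg_left _ (by positivity)
  have : (0 : ℝ) ≤ (M : ℝ) ^ 8 := by positivity
  have : (0 : ℝ) ≤ (M : ℝ) ^ 6 := by positivity
  linarith

/-- MODULE J (choice of the parameter `M`). -/
theorem choice (n : ℕ) (hn : 1 ≤ n) (Q : ℕ → Prop) (hQ0 : Q 0)
    (hcore : ∀ M : ℕ, 129 ≤ M → 4 / Real.pi ^ 2 * ((M : ℝ) ^ 10 + 3 * (M : ℝ) ^ 8) ≤ (n : ℝ) + 1 →
      Q (M ^ 5 - 16 * (Nat.log 2 M + 1) * M ^ 4 - 1)) :
    ∃ k : ℕ, Q k ∧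
      Real.pi / 2 * Real.sqrt n - 300 * (n : ℝ) ^ (2 / 5 : ℝ) * Real.log (n + 1) ≤ (k : ℝ) := by
  classical
  have hpi := Real.pi_pos
  have hpi4 := Real.pi_lt_d2
  have hnr : (1 : ℝ) ≤ n := by exact_mod_cast hn
  have hlog2 : 0.6931471803 < Real.log 2 := Real.log_two_gt_d9
  have hlogn : Real.log 2 ≤ Real.log ((n : ℝ) + 1) := Real.log_le_log (by norm_num) (by linarith)
  have hn25 : (0 : ℝ) < (n : ℝ) ^ (2 / 5 : ℝ) := by positivity
  set M := Nat.findGreatest (fun M => thr M ≤ (n : ℝ) + 1) (n + 1) with hMdef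
  have hMle : M ≤ n + 1 := Nat.findGreatest_le _
  have hM1 : thr M ≤ (n : ℝ) + 1 := by
    have h0 : thr 0 ≤ (n : ℝ) + 1 := by
      simp only [thr, Nat.cast_zero]
      norm_num
      linarith
    exact Nat.findGreatest_spec (P := fun M => thr M ≤ (n : ℝ) + 1) (Nat.zero_le _) h0
  have hM2 : (n : ℝ) + 1 < thr (M + 1) := by
    by_contra hcon
    push Not at hcon
    by_cases h : M + 1 ≤ n + 1
    · exact Nat.findGreatest_is_greatest (P := fun M => thr M ≤ (n : ℝ) + 1)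
        (Nat.lt_succ_self M) h hcon
    · have h1 : n + 2 ≤ M + 1 := by omega
      have h2 : ((n + 2 : ℕ) : ℝ) ≤ ((M + 1 : ℕ) : ℝ) := by exact_mod_cast h1
      have h3 := thr_ge (M + 1)
      push_cast at h2 h3 hcon
      linarith
  by_cases hM : 129 ≤ M
  · refine ⟨_, hcore M hM hM1, ?_⟩
    have hMr : (129 : ℝ) ≤ M := by exact_mod_cast hM
    have hlb := log_bound hM
    set t := 16 * (Nat.log 2 M + 1) with ht
    have hsub : t * M ^ 4 + 1 ≤ M ^ 5 := by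
      have h1 : M ^ 5 = M * M ^ 4 := by ring
      have h2 : 1 ≤ M ^ 4 := Nat.one_le_pow _ _ (by omega)
      rw [h1]
      nlinarith
    have hcast : ((M ^ 5 - t * M ^ 4 - 1 : ℕ) : ℝ) = (M : ℝ) ^ 5 - t * (M : ℝ) ^ 4 - 1 := by
      rw [Nat.cast_sub (by omega), Nat.cast_sub (by omega)]
      push_cast
      ring
    rw [hcast]
    -- the square root
    have hsq : Real.pi / 2 * Real.sqrt n ≤ ((M : ℝ) + 1) ^ 5 + 2 * ((M : ℝ) + 1) ^ 3 := by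
      have h1 := thr_le_sq (M + 1)
      have h2 : (n : ℝ) ≤ (2 / Real.pi * (((M + 1 : ℕ) : ℝ) ^ 5 + 2 * ((M + 1 : ℕ) : ℝ) ^ 3)) ^ 2 := by
        linarith
      have h3 : Real.sqrt n ≤ 2 / Real.pi * (((M + 1 : ℕ) : ℝ) ^ 5 + 2 * ((M + 1 : ℕ) : ℝ) ^ 3) :=
        Real.sqrt_le_iff.2 ⟨by positivity, h2⟩
      calc Real.pi / 2 * Real.sqrt n
          ≤ Real.pi / 2 * (2 / Real.pi * (((M + 1 : ℕ) : ℝ) ^ 5 + 2 * ((M + 1 : ℕ) : ℝ) ^ 3)) :=
            mul_le_mul_of_nonneg_left h3 (by positivity)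
        _ = ((M : ℝ) + 1) ^ 5 + 2 * ((M : ℝ) + 1) ^ 3 := by
            push_cast
            field_simp
    have hM1r : (1 : ℝ) ≤ M := by linarith
    have p3 : (M : ℝ) ^ 3 ≤ (M : ℝ) ^ 4 := pow_le_pow_right₀ hM1r (by norm_num)
    have p2 : (M : ℝ) ^ 2 ≤ (M : ℝ) ^ 4 := pow_le_pow_right₀ hM1r (by norm_num)
    have p1 : (M : ℝ) ≤ (M : ℝ) ^ 4 := le_self_pow₀ hM1r (by norm_num)
    have p0 : (1 : ℝ) ≤ (M : ℝ) ^ 4 := one_le_pow₀ hM1r
    have hexp : ((M : ℝ) + 1) ^ 5 + 2 * ((M : ℝ) + 1) ^ 3 ≤ (M : ℝ) ^ 5 + 47 * (M : ℝ) ^ 4 := by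
      have : ((M : ℝ) + 1) ^ 5 + 2 * ((M : ℝ) + 1) ^ 3 =
          (M : ℝ) ^ 5 + 5 * (M : ℝ) ^ 4 + 12 * (M : ℝ) ^ 3 + 16 * (M : ℝ) ^ 2 + 11 * M + 3 := by ring
      rw [this]
      linarith
    -- `M ^ 4 ≤ 2 n ^ (2/5)`
    have hM10 : (M : ℝ) ^ 10 ≤ 5 * n := by
      unfold thr at hM1
      have h1 : 4 / Real.pi ^ 2 * (M : ℝ) ^ 10 ≤ (n : ℝ) + 1 := by
        refine le_trans ?_ hM1
        apply mul_le_mul_of_nonneg_left _ (by positivity)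
        have : (0 : ℝ) ≤ (M : ℝ) ^ 8 := by positivity
        linarith
      have h2 : (2 : ℝ) / 5 ≤ 4 / Real.pi ^ 2 := by
        rw [div_le_div_iff₀ (by norm_num) (by positivity)]
        have := pi_sq_le
        linarith
      have h3 : (2 : ℝ) / 5 * (M : ℝ) ^ 10 ≤ 4 / Real.pi ^ 2 * (M : ℝ) ^ 10 :=
        mul_le_mul_of_nonneg_right h2 (by positivity)
      linarith
    have hM4 : (M : ℝ) ^ 4 ≤ 2 * (n : ℝ) ^ (2 / 5 : ℝ) := by
      have h1 : (M : ℝ) ^ 4 = ((M : ℝ) ^ 10) ^ (2 / 5 : ℝ) := by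
        rw [← Real.rpow_natCast, ← Real.rpow_natCast, ← Real.rpow_mul (by positivity)]
        norm_num
      have h2 : ((M : ℝ) ^ 10) ^ (2 / 5 : ℝ) ≤ (5 * (n : ℝ)) ^ (2 / 5 : ℝ) :=
        Real.rpow_le_rpow (by positivity) hM10 (by norm_num)
      have h3 : (5 * (n : ℝ)) ^ (2 / 5 : ℝ) = (5 : ℝ) ^ (2 / 5 : ℝ) * (n : ℝ) ^ (2 / 5 : ℝ) :=
        Real.mul_rpow (by norm_num) (by positivity)
      have h4 : (5 : ℝ) ^ (2 / 5 : ℝ) ≤ 2 := by
        have h5 : (5 : ℝ) ^ (2 / 5 : ℝ) = (25 : ℝ) ^ (1 / 5 : ℝ) := by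
          rw [show (25 : ℝ) = 5 ^ (2 : ℝ) by norm_num, ← Real.rpow_mul (by norm_num)]
          norm_num
        have h6 : (25 : ℝ) ^ (1 / 5 : ℝ) ≤ (32 : ℝ) ^ (1 / 5 : ℝ) :=
          Real.rpow_le_rpow (by norm_num) (by norm_num) (by norm_num)
        have h7 : (32 : ℝ) ^ (1 / 5 : ℝ) = 2 := by
          rw [show (32 : ℝ) = 2 ^ (5 : ℝ) by norm_num, ← Real.rpow_mul (by norm_num)]
          norm_num
        rw [h5]
        linarith
      rw [h1]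
      refine h2.trans ?_
      rw [h3]
      exact mul_le_mul_of_nonneg_right h4 hn25.le
    -- `t + 48 ≤ 150 log (n + 1)`
    have htl : (t : ℝ) + 48 ≤ 150 * Real.log ((n : ℝ) + 1) := by
      have h1 : 2 ^ Nat.log 2 M ≤ M := Nat.pow_log_le_self 2 (by omega)
      have h2 : ((2 : ℝ)) ^ Nat.log 2 M ≤ (n : ℝ) + 1 := by
        have : 2 ^ Nat.log 2 M ≤ n + 1 := h1.trans hMle
        exact_mod_cast this
      have h3 : (Nat.log 2 M : ℝ) * Real.log 2 ≤ Real.log ((n : ℝ) + 1) := by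
        rw [← Real.log_pow]
        exact Real.log_le_log (by positivity) h2
      have h4 : (t : ℝ) = 16 * (Nat.log 2 M : ℝ) + 16 := by
        rw [ht]
        push_cast
        ring
      have h5 : (Nat.log 2 M : ℝ) ≤ 1.5 * Real.log ((n : ℝ) + 1) := by
        have h6 : (0 : ℝ) ≤ (Nat.log 2 M : ℝ) := by positivity
        nlinarith
      rw [h4]
      linarith
    have hfin : ((t : ℝ) + 48) * (M : ℝ) ^ 4 ≤ 300 * (n : ℝ) ^ (2 / 5 : ℝ) * Real.log ((n : ℝ) + 1) := by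
      calc ((t : ℝ) + 48) * (M : ℝ) ^ 4
          ≤ (150 * Real.log ((n : ℝ) + 1)) * (2 * (n : ℝ) ^ (2 / 5 : ℝ)) := by
            apply mul_le_mul htl hM4 (by positivity)
            linarith
        _ = _ := by ring
    have : ((t : ℝ) + 48) * (M : ℝ) ^ 4 = t * (M : ℝ) ^ 4 + 48 * (M : ℝ) ^ 4 := by ring
    linarith
  · refine ⟨0, hQ0, ?_⟩
    rw [Nat.cast_zero, sub_nonpos]
    have hM' : M + 1 ≤ 129 := by omega
    have h1 : (n : ℝ) ≤ (129 : ℝ) ^ 10 := by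
      have h2 := thr_mono hM'
      have h3 : thr 129 ≤ (129 : ℝ) ^ 10 := by
        unfold thr
        have h4 : 4 / Real.pi ^ 2 ≤ 4 / 9 := by
          apply div_le_div_of_nonneg_left (by norm_num) (by norm_num) le_pi_sq
        calc 4 / Real.pi ^ 2 * (((129 : ℕ) : ℝ) ^ 10 + 3 * ((129 : ℕ) : ℝ) ^ 8)
            ≤ 4 / 9 * (((129 : ℕ) : ℝ) ^ 10 + 3 * ((129 : ℕ) : ℝ) ^ 8) :=
              mul_le_mul_of_nonneg_right h4 (by positivity)
          _ ≤ _ := by norm_num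
      linarith
    have h2 : Real.sqrt n ≤ 129 * (n : ℝ) ^ (2 / 5 : ℝ) := by
      have h3 : Real.sqrt n = (n : ℝ) ^ (1 / 10 : ℝ) * (n : ℝ) ^ (2 / 5 : ℝ) := by
        rw [Real.sqrt_eq_rpow, ← Real.rpow_add (by linarith)]
        norm_num
      have h4 : (n : ℝ) ^ (1 / 10 : ℝ) ≤ 129 := by
        have h5 : (n : ℝ) ^ (1 / 10 : ℝ) ≤ ((129 : ℝ) ^ 10) ^ (1 / 10 : ℝ) :=
          Real.rpow_le_rpow (by positivity) h1 (by norm_num)
        have h6 : ((129 : ℝ) ^ 10) ^ (1 / 10 : ℝ) = 129 := by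
          rw [← Real.rpow_natCast, ← Real.rpow_mul (by norm_num)]
          norm_num
        linarith
      rw [h3]
      exact mul_le_mul_of_nonneg_right h4 hn25.le
    calc Real.pi / 2 * Real.sqrt n ≤ 3.15 / 2 * (129 * (n : ℝ) ^ (2 / 5 : ℝ)) := by
          apply mul_le_mul (by linarith) h2 (by positivity) (by norm_num)
      _ ≤ 300 * (n : ℝ) ^ (2 / 5 : ℝ) * Real.log 2 := by nlinarith
      _ ≤ _ := mul_le_mul_of_nonneg_left hlogn (by positivity)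

end Pool.Agent.H30S
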