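import Pool.Agent.H30S.SineProd

set_option autoImplicit false

open Finset

namespace Pool.Agent.H30S

/-- monotone ratios decrease the coefficients -/
lemma cabs_le_of_ratio {m i : ℕ} (v x : ℕ → ℝ) (hi : 1 ≤ i) (him : i ≤ m)
    (hv : ∀ l, 1 ≤ l → l ≤ m → 0 < v l) (hx : ∀ l, 1 ≤ l → l ≤ m → 0 < x l)
    (hxm : ∀ l l', 1 ≤ l → l < l' → l' ≤ m → x l < x l')
    (hr : ∀ l l', 1 ≤ l → l < l' → l' ≤ m → v l * x l' ≤ v l' * x l) :
    cabs v m i ≤ cabs x m i := by
  unfold cabs
  apply Finset.prod_le_prod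
  · intro l hl
    rw [mem_erase, mem_Icc] at hl
    exact div_nonneg (hv l hl.2.1 hl.2.2).le (abs_nonneg _)
  · intro l hl
    rw [mem_erase, mem_Icc] at hl
    obtain ⟨hli, hl1, hlm⟩ := hl
    have hvl := hv l hl1 hlm
    have hxl := hx l hl1 hlm
    have hvi := hv i hi him
    have hxi := hx i hi him
    rcases lt_or_gt_of_ne hli with h | h
    · have h1 := hxm l i hl1 h him
      have h2 := hr l i hl1 h him
      have h3 : v l < v i := by
        by_contra hcon
        push Not at hcon
        have : v i * x l ≤ v l * x l := mul_le_mul_of_nonneg_right hcon hxl.le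
        have h4 : v l * x l < v l * x i := mul_lt_mul_of_pos_left h1 hvl
        linarith
      rw [abs_sub_comm, abs_sub_comm (x l), abs_of_pos (sub_pos.2 h3), abs_of_pos (sub_pos.2 h1),
        div_le_div_iff₀ (sub_pos.2 h3) (sub_pos.2 h1)]
      nlinarith
    · have h1 := hxm i l hi h hlm
      have h2 := hr i l hi h hlm
      have h3 : v i < v l := by
        by_contra hcon
        push Not at hcon
        have : v l * x i ≤ v i * x i := mul_le_mul_of_nonneg_right hcon hxi.le
        have h4 : v i * x i < v i * x l := mul_lt_mul_of_pos_left h1 hvi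
        linarith
      rw [abs_of_pos (sub_pos.2 h3), abs_of_pos (sub_pos.2 h1),
        div_le_div_iff₀ (sub_pos.2 h3) (sub_pos.2 h1)]
      nlinarith

section xs

variable {N : ℕ}

lemma ang_le {i : ℕ} (hN : 1 ≤ N) (hi : i ≤ N) : Real.pi * i / (2 * N) ≤ Real.pi / 2 := by
  have hN' : (0 : ℝ) < N := by exact_mod_cast hN
  have hi' : (i : ℝ) ≤ N := by exact_mod_cast hi
  rw [div_le_div_iff₀ (by positivity) (by norm_num)]
  have := Real.pi_pos
  nlinarith

lemma ang_nonneg (i : ℕ) : 0 ≤ Real.pi * i / (2 * N) := by positivity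

lemma sin_ang_pos {i : ℕ} (hi1 : 1 ≤ i) (hi : i ≤ N) : 0 < Real.sin (Real.pi * i / (2 * N)) := by
  have hN : 1 ≤ N := hi1.trans hi
  have hN' : (0 : ℝ) < N := by exact_mod_cast hN
  have hi' : (0 : ℝ) < i := by exact_mod_cast hi1
  apply Real.sin_pos_of_pos_of_lt_pi (by positivity)
  have := ang_le hN hi
  have := Real.pi_pos
  linarith

lemma xs_pos {i : ℕ} (hi1 : 1 ≤ i) (hi : i ≤ N) : 0 < xs N i := pow_pos (sin_ang_pos hi1 hi) 2

lemma xs_le_one (i : ℕ) : xs N i ≤ 1 := Real.sin_sq_le_one _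

lemma xs_lt {i j : ℕ} (hij : i < j) (hj : j ≤ N) : xs N i < xs N j := by
  have hN : 1 ≤ N := by omega
  have hN' : (0 : ℝ) < N := by exact_mod_cast hN
  have hp := Real.pi_pos
  have h1 : Real.pi * i / (2 * N) < Real.pi * j / (2 * N) := by
    have : (i : ℝ) < j := by exact_mod_cast hij
    gcongr
  have h2 := ang_le hN hj
  have h0 := ang_nonneg (N := N) i
  have hs : Real.sin (Real.pi * i / (2 * N)) < Real.sin (Real.pi * j / (2 * N)) :=
    Real.strictMonoOn_sin ⟨by linarith, by linarith⟩ ⟨by linarith, h2⟩ h1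
  have h3 : 0 ≤ Real.sin (Real.pi * i / (2 * N)) :=
    Real.sin_nonneg_of_nonneg_of_le_pi h0 (by linarith)
  unfold xs
  exact pow_lt_pow_left₀ hs h3 two_ne_zero

lemma le_xs {i : ℕ} (hN : 1 ≤ N) (hi : i ≤ N) : ((i : ℝ) / N) ^ 2 ≤ xs N i := by
  have hN' : (0 : ℝ) < N := by exact_mod_cast hN
  unfold xs
  apply pow_le_pow_left₀ (by positivity)
  have := Real.mul_le_sin (ang_nonneg (N := N) i) (ang_le hN hi)
  refine le_trans (le_of_eq ?_) this
  have := Real.pi_ne_zero
  field_simp

lemma xs_le (i : ℕ) : xs N i ≤ (Real.pi * i / (2 * N)) ^ 2 := by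
  unfold xs
  rw [← sq_abs (Real.sin _), ← sq_abs (Real.pi * i / (2 * N))]
  apply pow_le_pow_left₀ (abs_nonneg _)
  exact Real.abs_sin_le_abs

end xs

/-- the coefficients of the truncated Chebyshev nodes -/
lemma cabs_xs_trunc {N m i : ℕ} (hi : 1 ≤ i) (him : i ≤ m) (hm : m < N) :
    cabs (xs N) m i ≤ 2 * Real.exp (-(((i : ℝ) / N) ^ 2 * (N - m))) := by
  have hN : 1 ≤ N := by omega
  have hfull := cabs_xs_full N i hi (by omega)
  have hsplit : cabs (xs N) N i = cabs (xs N) m i * ∏ l ∈ Ioc m N, xs N l / |xs N l - xs N i| := by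
    unfold cabs
    rw [← Finset.prod_union]
    · congr 1
      ext l
      simp only [mem_erase, mem_Icc, mem_union, mem_Ioc]
      omega
    · rw [Finset.disjoint_left]
      intro l hl
      simp only [mem_erase, mem_Icc] at hl
      simp only [mem_Ioc]
      omega
  have hge : Real.exp (xs N i) ^ (N - m) ≤ ∏ l ∈ Ioc m N, xs N l / |xs N l - xs N i| := by
    have : Real.exp (xs N i) ^ (N - m) = ∏ l ∈ Ioc m N, Real.exp (xs N i) := by
      rw [Finset.prod_const, Nat.card_Ioc]
    rw [this]
    apply Finset.prod_le_prod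
    · intro l _
      exact (Real.exp_pos _).le
    · intro l hl
      rw [mem_Ioc] at hl
      have h1 : xs N i < xs N l := xs_lt (by omega) hl.2
      have h2 : 0 < xs N i := xs_pos hi (by omega)
      have h3 : xs N l ≤ 1 := xs_le_one l
      rw [abs_of_pos (sub_pos.2 h1), le_div_iff₀ (sub_pos.2 h1)]
      have h4 : 1 - xs N i ≤ Real.exp (-xs N i) := by
        have := Real.add_one_le_exp (-xs N i)
        linarith
      have h5 : xs N l - xs N i ≤ xs N l * (1 - xs N i) := by nlinarith
      calc Real.exp (xs N i) * (xs N l - xs N i)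
          ≤ Real.exp (xs N i) * (xs N l * Real.exp (-xs N i)) := by
            apply mul_le_mul_of_nonneg_left _ (Real.exp_pos _).le
            refine h5.trans ?_
            exact mul_le_mul_of_nonneg_left h4 (by linarith)
        _ = xs N l := by
            rw [Real.exp_neg]
            have := (Real.exp_pos (xs N i)).ne'
            field_simp
  have hcn : 0 ≤ cabs (xs N) m i := by
    unfold cabs
    apply Finset.prod_nonneg
    intro l hl
    simp only [mem_erase, mem_Icc] at hl
    exact div_nonneg (xs_pos hl.2.1 (by omega)).le (abs_nonneg _)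
  have h6 : cabs (xs N) m i * Real.exp (xs N i) ^ (N - m) ≤ 2 := by
    rw [← hfull, hsplit]
    exact mul_le_mul_of_nonneg_left hge hcn
  have h7 : Real.exp (((i : ℝ) / N) ^ 2 * (N - m)) ≤ Real.exp (xs N i) ^ (N - m) := by
    rw [← Real.exp_nat_mul]
    apply Real.exp_le_exp.2
    rw [Nat.cast_sub hm.le, mul_comm]
    apply mul_le_mul_of_nonneg_left (le_xs hN (by omega))
    have : (m : ℝ) < N := by exact_mod_cast hm
    linarith
  rw [Real.exp_neg, ← div_eq_mul_inv, le_div_iff₀ (Real.exp_pos _)]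
  exact (mul_le_mul_of_nonneg_left h7 hcn).trans h6

end Pool.Agent.H30S
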