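import Pool.Agent.H30S.Defs

set_option autoImplicit false

open Finset

namespace Pool.Agent.H30S

theorem cot_sub {a b : ℝ} (ha : Real.sin a ≠ 0) (hb : Real.sin b ≠ 0) :
    Real.cos a / Real.sin a - Real.cos b / Real.sin b = Real.sin (b - a) / (Real.sin a * Real.sin b) := by
  rw [div_sub_div _ _ ha hb, Real.sin_sub]
  ring

theorem cot_step {z g : ℝ} (h1 : 0 < z - g) (h2 : z + g < Real.pi) (hg : 0 < g) (hg' : 2 * g < Real.pi) :
    Real.sin (2 * g) * (1 / Real.sin z ^ 2) ≤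
      Real.cos (z - g) / Real.sin (z - g) - Real.cos (z + g) / Real.sin (z + g) := by
  have s1 : 0 < Real.sin (z - g) := Real.sin_pos_of_pos_of_lt_pi h1 (by linarith)
  have s2 : 0 < Real.sin (z + g) := Real.sin_pos_of_pos_of_lt_pi (by linarith) h2
  have s3 : 0 < Real.sin z := Real.sin_pos_of_pos_of_lt_pi (by linarith) (by linarith)
  have s4 : 0 < Real.sin (2 * g) := Real.sin_pos_of_pos_of_lt_pi (by linarith) hg'
  rw [cot_sub s1.ne' s2.ne', mul_one_div]
  have e : z + g - (z - g) = 2 * g := by ring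
  rw [e]
  apply div_le_div_of_nonneg_left s4.le (mul_pos s1 s2)
  rw [Real.sin_sub, Real.sin_add]
  have hc := Real.sin_sq_add_cos_sq z
  have hc' := Real.sin_sq_add_cos_sq g
  have e2 : (Real.sin z * Real.cos g - Real.cos z * Real.sin g) * (Real.sin z * Real.cos g + Real.cos z * Real.sin g) =
      Real.sin z ^ 2 - Real.sin g ^ 2 := by
    have h3 : Real.cos g ^ 2 = 1 - Real.sin g ^ 2 := by linarith
    have h4 : Real.cos z ^ 2 = 1 - Real.sin z ^ 2 := by linarith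
    calc _ = Real.sin z ^ 2 * Real.cos g ^ 2 - Real.cos z ^ 2 * Real.sin g ^ 2 := by ring
      _ = _ := by rw [h3, h4]; ring
  rw [e2]
  nlinarith [sq_nonneg (Real.sin g)]

/-- MODULE E (telescoping with cotangents) -/
theorem sum_inv_xs (N K m : ℕ) (hK : 1 ≤ K) (hKm : K ≤ m) (hm : m < N) :
    (Real.pi / (2 * N)) ^ 2 * ∑ l ∈ Ioc K m, 1 / xs N l ≤
      2 / (2 * K + 1) - (Real.pi / (2 * N)) ^ 2 * (N - m - 1) := by
  have hN2 : 2 ≤ N := by omega
  have hN : (2 : ℝ) ≤ N := by exact_mod_cast hN2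
  have hpi := Real.pi_pos
  obtain ⟨w, hw⟩ : ∃ w : ℝ, w = Real.pi / (2 * N) := ⟨_, rfl⟩
  have hwN : w * N = Real.pi / 2 := by rw [hw]; field_simp
  have hw0 : 0 < w := by rw [hw]; positivity
  have hw1 : w ≤ 1 := by
    have h4 := Real.pi_le_four
    nlinarith
  have hwpi : w < Real.pi := by linarith [Real.pi_gt_three]
  have hxs : ∀ l : ℕ, xs N l = Real.sin (w * l) ^ 2 := by
    intro l
    unfold xs
    rw [hw]
    congr 2
    ring
  have hK' : (1 : ℝ) ≤ K := by exact_mod_cast hK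
  have hKm' : (K : ℝ) ≤ m := by exact_mod_cast hKm
  have hmN : (m : ℝ) + 1 ≤ N := by exact_mod_cast hm
  -- the cotangents
  obtain ⟨c, hc⟩ : ∃ c : ℕ → ℝ, ∀ l, c l = Real.cos (w * (l + 1 / 2)) / Real.sin (w * (l + 1 / 2)) :=
    ⟨fun l => _, fun l => rfl⟩
  have hstep : ∀ n : ℕ, K ≤ n → n ≤ m → Real.sin w * ∑ l ∈ Ioc K n, 1 / xs N l ≤ c K - c n := by
    intro n hn
    induction n, hn using Nat.le_induction with
    | base => intro _; simp
    | succ n hn ih =>
      intro hnm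
      have ih' := ih (by omega)
      rw [sum_Ioc_succ_top (by omega), mul_add]
      have hnm' : (n : ℝ) + 1 ≤ m := by exact_mod_cast hnm
      have hn' : (1 : ℝ) ≤ n := by exact_mod_cast (by omega : 1 ≤ n)
      have h3 := cot_step (z := w * ((n + 1 : ℕ) : ℝ)) (g := w / 2) (by push_cast; nlinarith) (by
        push_cast
        nlinarith) (by linarith) (by linarith)
      have e1 : 2 * (w / 2) = w := by ring
      have e2 : w * ((n + 1 : ℕ) : ℝ) - w / 2 = w * (n + 1 / 2) := by push_cast; ring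
      have e3 : w * ((n + 1 : ℕ) : ℝ) + w / 2 = w * (((n + 1 : ℕ) : ℝ) + 1 / 2) := by ring
      rw [e1, e2, e3, ← hc n, ← hc (n + 1), ← hxs (n + 1)] at h3
      linarith
  have h1 := hstep m hKm le_rfl
  have hsw : 0 < Real.sin w := Real.sin_pos_of_pos_of_lt_pi hw0 hwpi
  -- the first cotangent
  have hy0 : 0 < w * ((K : ℝ) + 1 / 2) := by positivity
  have hy1 : w * ((K : ℝ) + 1 / 2) < Real.pi / 2 := by
    rw [← hwN]
    nlinarith
  have hcK : c K ≤ 1 / (w * ((K : ℝ) + 1 / 2)) := by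
    rw [hc]
    have h4 := Real.lt_tan hy0 hy1
    rw [Real.tan_eq_sin_div_cos] at h4
    have hcos : 0 < Real.cos (w * ((K : ℝ) + 1 / 2)) := Real.cos_pos_of_mem_Ioo ⟨by linarith, hy1⟩
    have hsin : 0 < Real.sin (w * ((K : ℝ) + 1 / 2)) := Real.sin_pos_of_pos_of_lt_pi hy0 (by linarith)
    rw [div_le_div_iff₀ hsin hy0]
    rw [lt_div_iff₀ hcos] at h4
    linarith
  -- the last cotangent
  have hv0 : 0 < w * ((N : ℝ) - m - 1 / 2) := by
    apply mul_pos hw0
    linarith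
  have hv1 : w * ((N : ℝ) - m - 1 / 2) < Real.pi / 2 := by
    rw [← hwN]
    have : (0 : ℝ) ≤ m := by positivity
    nlinarith
  have hcm : w * ((N : ℝ) - m - 1 / 2) ≤ c m := by
    rw [hc]
    have e : w * ((m : ℝ) + 1 / 2) = Real.pi / 2 - w * ((N : ℝ) - m - 1 / 2) := by
      rw [← hwN]; ring
    rw [e, Real.cos_pi_div_two_sub, Real.sin_pi_div_two_sub, ← Real.tan_eq_sin_div_cos]
    exact Real.le_tan hv0.le hv1
  -- w / sin w
  have hr1 : w ≤ (1 + w ^ 2 / 3) * Real.sin w := by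
    have h5 := Real.sin_gt_sub_cube hw0
    have h6 : (1 + w ^ 2 / 3) * (w - w ^ 3 / 6) ≤ (1 + w ^ 2 / 3) * Real.sin w :=
      mul_le_mul_of_nonneg_left h5.le (by positivity)
    have h7 : w ≤ (1 + w ^ 2 / 3) * (w - w ^ 3 / 6) := by
      have h8 : (1 + w ^ 2 / 3) * (w - w ^ 3 / 6) - w = w ^ 3 * (3 - w ^ 2) / 18 := by ring
      have h9 : 0 ≤ w ^ 3 * (3 - w ^ 2) / 18 := by
        have : 0 ≤ 3 - w ^ 2 := by nlinarith
        positivity
      linarith
    linarith
  have hr2 : Real.sin w ≤ w := Real.sin_le hw0.le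
  -- assembly
  rw [← hw]
  have hS : ∑ l ∈ Ioc K m, 1 / xs N l ≤ (c K - c m) / Real.sin w := by
    rw [le_div_iff₀ hsw]; linarith
  have hcm0 : 0 ≤ c m := hv0.le.trans hcm
  have hrat1 : w / Real.sin w ≤ 1 + w ^ 2 / 3 := by rw [div_le_iff₀ hsw]; exact hr1
  have hrat2 : 1 ≤ w / Real.sin w := by rw [le_div_iff₀ hsw]; linarith
  have hcK0 : 0 ≤ 1 / (w * ((K : ℝ) + 1 / 2)) := by positivity
  calc w ^ 2 * ∑ l ∈ Ioc K m, 1 / xs N l ≤ w ^ 2 * ((c K - c m) / Real.sin w) :=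
        mul_le_mul_of_nonneg_left hS (by positivity)
    _ = w * ((w / Real.sin w) * c K) - w * ((w / Real.sin w) * c m) := by
        field_simp
    _ ≤ w * ((1 + w ^ 2 / 3) * (1 / (w * ((K : ℝ) + 1 / 2)))) - w * (1 * (w * ((N : ℝ) - m - 1 / 2))) := by
        have a1 : (w / Real.sin w) * c K ≤ (1 + w ^ 2 / 3) * (1 / (w * ((K : ℝ) + 1 / 2))) := by
          calc (w / Real.sin w) * c K ≤ (w / Real.sin w) * (1 / (w * ((K : ℝ) + 1 / 2))) :=
                mul_le_mul_of_nonneg_left hcK (by linarith)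
            _ ≤ _ := mul_le_mul_of_nonneg_right hrat1 hcK0
        have a2 : 1 * (w * ((N : ℝ) - m - 1 / 2)) ≤ (w / Real.sin w) * c m := by
          calc 1 * (w * ((N : ℝ) - m - 1 / 2)) ≤ 1 * c m := by linarith
            _ ≤ _ := mul_le_mul_of_nonneg_right hrat2 hcm0
        have b1 := mul_le_mul_of_nonneg_left a1 hw0.le
        have b2 := mul_le_mul_of_nonneg_left a2 hw0.le
        linarith
    _ = 2 / (2 * K + 1) + w ^ 2 * (2 / (3 * (2 * K + 1))) - w ^ 2 * ((N : ℝ) - m - 1 / 2) := by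
        field_simp
    _ ≤ 2 / (2 * K + 1) - w ^ 2 * ((N : ℝ) - m - 1) := by
        have h3 : 2 / (3 * (2 * (K : ℝ) + 1)) ≤ 1 / 2 := by
          rw [div_le_div_iff₀ (by positivity) (by norm_num)]
          linarith
        have h4 : 0 ≤ w ^ 2 := sq_nonneg w
        nlinarith

end Pool.Agent.H30S
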