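import Pool.Agent.H30S.Defs

/-!
# From nodes to a polynomial
-/

set_option autoImplicit false

open Finset Polynomial

namespace Pool.Agent.H30S

theorem nodes_lt {m : ℕ} {e : ℕ → ℕ} (hmono : ∀ i < m, e i < e (i + 1)) {i j : ℕ} (hij : i < j) (hj : j ≤ m) :
    e i < e j := by
  induction j with
  | zero => omega
  | succ j ih =>
    rcases Nat.lt_succ_iff_lt_or_eq.1 hij with h | h
    · exact (ih h (by omega)).trans (hmono j (by omega))
    · subst h
      exact hmono i (by omega)

theorem nodes_le {m : ℕ} {e : ℕ → ℕ} (hmono : ∀ i < m, e i < e (i + 1)) {i j : ℕ} (hij : i ≤ j) (hj : j ≤ m) :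
    e i ≤ e j := by
  rcases hij.lt_or_eq with h | h
  · exact (nodes_lt hmono h hj).le
  · rw [h]

theorem nodes_inj {m : ℕ} {e : ℕ → ℕ} (hmono : ∀ i < m, e i < e (i + 1)) {i j : ℕ} (hi : i ≤ m) (hj : j ≤ m)
    (h : e i = e j) : i = j := by
  rcases lt_trichotomy i j with h1 | h1 | h1
  · have := nodes_lt hmono h1 hj
    omega
  · exact h1
  · have := nodes_lt hmono h1 hi
    omega

/-- the coefficients of the divided difference -/
theorem coef_eq (m : ℕ) (e : ℕ → ℕ) (h0 : e 0 = 0) (hmono : ∀ i < m, e i < e (i + 1)) (j : ℕ) (hj : j ≤ m) :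
    (-1 : ℝ) ^ j * cabs (fun l => (e l : ℝ)) m j =
      (-1 : ℝ) ^ m * (∏ l ∈ Icc 1 m, (e l : ℝ)) / ∏ l ∈ (range (m + 1)).erase j, ((e j : ℝ) - e l) := by
  -- the signs
  have h1 : ∏ l ∈ (range (m + 1)).erase j, ((e j : ℝ) - e l) =
      (-1 : ℝ) ^ (m - j) * ∏ l ∈ (range (m + 1)).erase j, |(e l : ℝ) - e j| := by
    have h2 : ∀ l ∈ (range (m + 1)).erase j, ((e j : ℝ) - e l) =
        (if l < j then 1 else -1) * |(e l : ℝ) - e j| := by
      intro l hl
      rw [mem_erase, mem_range] at hl
      by_cases h : l < j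
      · have h3 : (e l : ℝ) < e j := by exact_mod_cast nodes_lt hmono h hj
        rw [if_pos h, abs_of_neg (by linarith)]
        ring
      · have h3 : (e j : ℝ) < e l := by exact_mod_cast nodes_lt hmono (by omega : j < l) (by omega)
        rw [if_neg h, abs_of_pos (by linarith)]
        ring
    rw [prod_congr rfl h2, prod_mul_distrib]
    congr 1
    rw [prod_ite, prod_const_one, one_mul, prod_const]
    congr 1
    have h4 : filter (fun x => ¬ x < j) ((range (m + 1)).erase j) = Ioc j m := by
      ext x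
      simp only [mem_filter, mem_erase, mem_range, mem_Ioc]
      omega
    rw [h4, Nat.card_Ioc]
  -- the absolute values
  have hpos : ∀ l, 1 ≤ l → l ≤ m → (0 : ℝ) < e l := by
    intro l hl hl'
    have := nodes_lt hmono (by omega : 0 < l) hl'
    rw [h0] at this
    exact_mod_cast this
  have hne : ∀ l, l ≤ m → l ≠ j → |(e l : ℝ) - e j| ≠ 0 := by
    intro l hl hlj h
    rw [abs_eq_zero, sub_eq_zero] at h
    exact hlj (nodes_inj hmono hl hj (by exact_mod_cast h))
  have h5 : cabs (fun l => (e l : ℝ)) m j * ∏ l ∈ (range (m + 1)).erase j, |(e l : ℝ) - e j| =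
      ∏ l ∈ Icc 1 m, (e l : ℝ) := by
    unfold cabs
    rcases Nat.eq_zero_or_pos j with rfl | hj0
    · have h6 : (Icc 1 m).erase 0 = Icc 1 m := by
        apply erase_eq_of_notMem
        simp
      have h7 : (range (m + 1)).erase 0 = Icc 1 m := by
        ext x
        simp only [mem_erase, mem_range, mem_Icc]
        omega
      rw [h6, h7, ← prod_mul_distrib]
      refine prod_congr rfl fun l hl => ?_
      rw [mem_Icc] at hl
      have := hne l hl.2 (by omega)
      field_simp
    · have h7 : (range (m + 1)).erase j = insert 0 ((Icc 1 m).erase j) := by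
        ext x
        simp only [mem_insert, mem_erase, mem_range, mem_Icc]
        omega
      have h8 : (0 : ℕ) ∉ (Icc 1 m).erase j := by simp
      rw [h7, prod_insert h8, ← mul_prod_erase (Icc 1 m) (fun l => (e l : ℝ)) (mem_Icc.2 ⟨hj0, hj⟩), h0]
      have h9 : |((0 : ℕ) : ℝ) - e j| = e j := by
        rw [Nat.cast_zero, zero_sub, abs_neg, abs_of_pos (hpos j hj0 hj)]
      rw [h9, mul_left_comm]
      congr 1
      rw [← prod_mul_distrib]
      refine prod_congr rfl fun l hl => ?_
      rw [mem_erase, mem_Icc] at hl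
      have := hne l hl.2.2 hl.1
      field_simp
  have h10 : ∏ l ∈ (range (m + 1)).erase j, |(e l : ℝ) - e j| ≠ 0 := by
    rw [prod_ne_zero_iff]
    intro l hl
    rw [mem_erase, mem_range] at hl
    exact hne l (by omega) hl.1
  have h11 : (-1 : ℝ) ^ m = (-1) ^ j * (-1) ^ (m - j) := by
    rw [← pow_add]
    congr 1
    omega
  have h12 : (-1 : ℝ) ^ (m - j) ≠ 0 := pow_ne_zero _ (by norm_num)
  rw [h1, ← h5, h11]
  field_simp

/-- divided differences annihilate the polynomials of small degree -/
theorem nodes_sum (m : ℕ) (e : ℕ → ℕ) (h0 : e 0 = 0) (hmono : ∀ i < m, e i < e (i + 1)) (P : ℝ[X])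
    (hP : P.degree < (m : ℕ)) :
    ∑ j ∈ range (m + 1), (-1 : ℝ) ^ j * cabs (fun l => (e l : ℝ)) m j * P.eval (e j : ℝ) = 0 := by
  have hinj : Set.InjOn (fun l => (e l : ℝ)) (range (m + 1) : Finset ℕ) := by
    intro a ha b hb hab
    rw [mem_coe, mem_range] at ha hb
    have hab' : (e a : ℝ) = e b := hab
    exact nodes_inj hmono (by omega) (by omega) (by exact_mod_cast hab')
  have h1 : P.degree < #(range (m + 1)) := by
    rw [card_range]
    exact hP.trans (by exact_mod_cast Nat.lt_succ_self m)
  have h2 := Lagrange.coeff_eq_sum hinj h1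
  rw [card_range, Nat.add_sub_cancel, coeff_eq_zero_of_degree_lt hP] at h2
  have h3 : ∀ j ∈ range (m + 1), (-1 : ℝ) ^ j * cabs (fun l => (e l : ℝ)) m j * P.eval (e j : ℝ) =
      ((-1 : ℝ) ^ m * (∏ l ∈ Icc 1 m, (e l : ℝ))) *
        (P.eval (e j : ℝ) / ∏ l ∈ (range (m + 1)).erase j, ((e j : ℝ) - e l)) := by
    intro j hj
    rw [mem_range] at hj
    rw [coef_eq m e h0 hmono j (by omega)]
    ring
  rw [sum_congr rfl h3, ← mul_sum, ← h2, mul_zero]

/-- the sum of the coefficients times binomial coefficients -/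
theorem nodes_choose (m : ℕ) (e : ℕ → ℕ) (h0 : e 0 = 0) (hmono : ∀ i < m, e i < e (i + 1)) (k : ℕ) (hk : k < m) :
    ∑ j ∈ range (m + 1), (-1 : ℝ) ^ j * cabs (fun l => (e l : ℝ)) m j * ((e j).choose k : ℝ) = 0 := by
  have h1 : (descPochhammer ℝ k).degree < (m : ℕ) := by
    rw [degree_eq_natDegree (monic_descPochhammer ℝ k).ne_zero, descPochhammer_natDegree]
    exact_mod_cast hk
  have h2 := nodes_sum m e h0 hmono _ h1
  have h3 : (k.factorial : ℝ) ≠ 0 := by exact_mod_cast k.factorial_ne_zero
  have h4 : ∀ j ∈ range (m + 1), (-1 : ℝ) ^ j * cabs (fun l => (e l : ℝ)) m j * (descPochhammer ℝ k).eval (e j : ℝ) =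
      (k.factorial : ℝ) * ((-1 : ℝ) ^ j * cabs (fun l => (e l : ℝ)) m j * ((e j).choose k : ℝ)) := by
    intro j _
    rw [descPochhammer_eval_eq_descFactorial, Nat.descFactorial_eq_factorial_mul_choose, Nat.cast_mul]
    ring
  rw [sum_congr rfl h4, ← mul_sum] at h2
  exact (mul_eq_zero.1 h2).resolve_left h3

/-- MODULE A (from nodes to a polynomial). -/
theorem poly_of_nodes (m n : ℕ) (hm : 1 ≤ m) (e : ℕ → ℕ) (h0 : e 0 = 0)
    (hmono : ∀ i < m, e i < e (i + 1)) (hn : e m ≤ n + 1)
    (hs : ∀ i < m, |∑ j ∈ range (i + 1), (-1 : ℝ) ^ j * cabs (fun l => (e l : ℝ)) m j| ≤ 1) :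
    ∃ p : ℝ[X], p.natDegree ≤ n ∧ p.coeff 0 = 1 ∧ (∀ j, |p.coeff j| ≤ 1) ∧
      (X - 1) ^ (m - 1) ∣ p := by
  set c : ℕ → ℝ := fun j => (-1 : ℝ) ^ j * cabs (fun l => (e l : ℝ)) m j with hc
  set q : ℝ[X] := ∑ j ∈ range (m + 1), monomial (e j) (c j) with hq
  have hdvd : (X - C 1) ^ m ∣ q := by
    rw [X_sub_C_pow_dvd_iff, ← taylor_apply, X_pow_dvd_iff]
    intro k hk
    rw [taylor_coeff, hq, map_sum, eval_finsetSum]
    rw [← nodes_choose m e h0 hmono k hk]
    refine sum_congr rfl fun j _ => ?_
    rw [hasseDeriv_monomial, eval_monomial, one_pow, mul_one, mul_comm]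
  have hfull : ∑ j ∈ range (m + 1), c j = 0 := by
    have := nodes_choose m e h0 hmono 0 (by omega)
    simpa [hc] using this
  obtain ⟨r, hr⟩ := hdvd
  have hc0 : c 0 = 1 := by
    simp only [hc]
    rw [pow_zero, one_mul]
    unfold cabs
    refine prod_eq_one fun l hl => ?_
    rw [mem_erase, mem_Icc] at hl
    have h2 : (0 : ℝ) < e l := by
      have := nodes_lt hmono (by omega : 0 < l) hl.2.2
      rw [h0] at this
      exact_mod_cast this
    simp only [h0, Nat.cast_zero, sub_zero]
    rw [abs_of_pos h2, div_self h2.ne']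
  set p : ℝ[X] := -((X - C 1) ^ (m - 1) * r) with hp
  have hpq : q = p - X * p := by
    have h1 : (X - C 1 : ℝ[X]) ^ m = (X - C 1) * (X - C 1) ^ (m - 1) := by
      rw [← pow_succ', Nat.sub_add_cancel hm]
    rw [hr, h1, hp, C_1]
    ring
  have hqc : ∀ t, q.coeff t = ∑ j ∈ range (m + 1), if e j = t then c j else 0 := by
    intro t
    rw [hq, finsetSum_coeff]
    exact sum_congr rfl fun j _ => coeff_monomial
  have hpc : ∀ t, p.coeff t = ∑ j ∈ (range (m + 1)).filter (fun j => e j ≤ t), c j := by
    intro t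
    induction t with
    | zero =>
      have h1 : q.coeff 0 = p.coeff 0 := by rw [hpq, coeff_sub, coeff_X_mul_zero, sub_zero]
      rw [← h1, hqc, ← sum_filter]
      refine sum_congr ?_ fun _ _ => rfl
      ext j
      simp
    | succ t ih =>
      have h1 : q.coeff (t + 1) = p.coeff (t + 1) - p.coeff t := by
        conv_lhs => rw [hpq]
        rw [coeff_sub, coeff_X_mul]
      have h2 : p.coeff (t + 1) = p.coeff t + q.coeff (t + 1) := by rw [h1]; ring
      rw [h2, ih, hqc, ← sum_filter, ← sum_union]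
      · refine sum_congr ?_ fun _ _ => rfl
        ext j
        simp only [mem_union, mem_filter, mem_range]
        omega
      · rw [disjoint_left]
        intro j h3 h4
        simp only [mem_filter] at h3 h4
        omega
  have hp0 : p.coeff 0 = 1 := by
    rw [hpc]
    have h1 : (range (m + 1)).filter (fun j => e j ≤ 0) = {0} := by
      ext j
      simp only [mem_filter, mem_range, mem_singleton]
      constructor
      · rintro ⟨h2, h3⟩
        by_contra h4
        have := nodes_lt hmono (by omega : 0 < j) (by omega)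
        omega
      · rintro rfl
        exact ⟨by omega, by omega⟩
    rw [h1, sum_singleton, hc0]
  refine ⟨p, ?_, hp0, ?_, ?_⟩
  · rw [natDegree_le_iff_coeff_eq_zero]
    intro N hN
    rw [hpc]
    have h1 : (range (m + 1)).filter (fun j => e j ≤ N) = range (m + 1) := by
      rw [filter_eq_self]
      intro j hj
      rw [mem_range] at hj
      have := nodes_le hmono (by omega : j ≤ m) le_rfl
      omega
    rw [h1, hfull]
  · intro t
    rw [hpc]
    by_cases ht : e m ≤ t
    · have h1 : (range (m + 1)).filter (fun j => e j ≤ t) = range (m + 1) := by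
        rw [filter_eq_self]
        intro j hj
        rw [mem_range] at hj
        have := nodes_le hmono (by omega : j ≤ m) le_rfl
        omega
      rw [h1, hfull, abs_zero]
      exact zero_le_one
    · -- the largest `i` with `e i ≤ t`
      have h1 : ∃ i, t < e i := ⟨m, by omega⟩
      classical
      have h2 := Nat.find_spec h1
      have h3 : Nat.find h1 ≤ m := Nat.find_min' h1 (by omega)
      have h4 : 0 < Nat.find h1 := by
        rw [Nat.pos_iff_ne_zero]
        intro h
        rw [h, h0] at h2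
        omega
      have h5 : (range (m + 1)).filter (fun j => e j ≤ t) = range (Nat.find h1 - 1 + 1) := by
        rw [Nat.sub_add_cancel h4]
        ext j
        simp only [mem_filter, mem_range]
        constructor
        · rintro ⟨h6, h7⟩
          by_contra h8
          have := nodes_le hmono (by omega : Nat.find h1 ≤ j) (by omega)
          omega
        · intro h6
          have := Nat.find_min h1 h6
          exact ⟨by omega, by omega⟩
      rw [h5]
      exact hs _ (by omega)
  · rw [hp, ← C_1]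
    exact (Dvd.intro _ rfl).neg_right

end Pool.Agent.H30S
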