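import Mathlib

set_option autoImplicit false

open Finset

namespace Pool.Agent.H30S

/-- MODULE G (alternating partial sums). -/
theorem partial_sums {m I : ℕ} {τ : ℝ} (C : ℕ → ℝ) (hI : 2 ≤ I) (hIm : I ≤ m) (h0 : C 0 = 1)
    (hC : ∀ j, 0 ≤ C j) (h1 : C 1 ≤ 2 - τ) (h2 : C 2 ≤ C 1 - τ)
    (hdec : ∀ i, 1 ≤ i → i + 1 ≤ I → C (i + 1) ≤ C i) (htail : ∑ j ∈ Ioc I m, C j ≤ τ) :
    ∀ i ≤ m, |∑ j ∈ range (i + 1), (-1 : ℝ) ^ j * C j| ≤ 1 := by
  obtain ⟨s, hs⟩ : ∃ s : ℕ → ℝ, ∀ i, s i = ∑ j ∈ range (i + 1), (-1 : ℝ) ^ j * C j :=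
    ⟨_, fun _ => rfl⟩
  have hτ : 0 ≤ τ := (Finset.sum_nonneg fun j _ => hC j).trans htail
  have hstep : ∀ i, s (i + 1) = s i + (-1 : ℝ) ^ (i + 1) * C (i + 1) := by
    intro i
    rw [hs, hs, Finset.sum_range_succ]
  have s0 : s 0 = 1 := by
    rw [hs]
    simp [h0]
  have s1 : s 1 = 1 - C 1 := by
    rw [hstep 0, s0]
    ring
  have s2 : s 2 = 1 - C 1 + C 2 := by
    rw [hstep 1, s1]
    ring
  -- the values for `1 ≤ i ≤ I`
  have hmain : ∀ i, i + 2 ≤ I → (s 1 ≤ s (i + 1) ∧ s (i + 1) ≤ s 2) ∧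
      (s 1 ≤ s (i + 2) ∧ s (i + 2) ≤ s 2) := by
    intro i
    induction i with
    | zero =>
      intro _
      have := hC 2
      refine ⟨⟨le_refl _, ?_⟩, ⟨?_, le_refl _⟩⟩ <;> simp only [zero_add] <;> linarith
    | succ i ih =>
      intro hi
      obtain ⟨⟨a1, a2⟩, b1, b2⟩ := ih (by omega)
      have hd := hdec (i + 2) (by omega) (by omega)
      have e1 := hstep (i + 1)
      have e2 := hstep (i + 2)
      have hc2 := hC (i + 2)
      have hc3 := hC (i + 3)
      have ee : i + 1 + 1 = i + 2 := by ring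
      have ee2 : i + 2 + 1 = i + 3 := by ring
      rw [ee] at e1 ⊢
      rw [ee2] at e2 hd
      have ee3 : i + 1 + 2 = i + 3 := by ring
      rw [ee3]
      refine ⟨⟨b1, b2⟩, ?_⟩
      rcases Nat.even_or_odd i with he | ho
      · have p1 : (-1 : ℝ) ^ (i + 2) = 1 := by
          rw [pow_add, he.neg_one_pow]; norm_num
        have p2 : (-1 : ℝ) ^ (i + 3) = -1 := by
          rw [pow_add, he.neg_one_pow]; norm_num
        rw [p1] at e1
        rw [p2] at e2
        constructor <;> linarith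
      · have p1 : (-1 : ℝ) ^ (i + 2) = -1 := by
          rw [pow_add, ho.neg_one_pow]; norm_num
        have p2 : (-1 : ℝ) ^ (i + 3) = 1 := by
          rw [pow_add, ho.neg_one_pow]; norm_num
        rw [p1] at e1
        rw [p2] at e2
        constructor <;> linarith
  have hrange : ∀ i, 1 ≤ i → i ≤ I → s 1 ≤ s i ∧ s i ≤ s 2 := by
    intro i hi1 hi2
    rcases Nat.lt_or_ge i 2 with h | h
    · have : i = 0 + 1 := by omega
      rw [this]
      exact (hmain 0 (by omega)).1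
    · obtain ⟨k, rfl⟩ : ∃ k, i = k + 2 := ⟨i - 2, by omega⟩
      exact (hmain k hi2).2
  -- the tail
  have htail' : ∀ k, I + k ≤ m → |s (I + k) - s I| ≤ ∑ j ∈ Ioc I (I + k), C j := by
    intro k
    induction k with
    | zero => intro _; simp
    | succ k ih =>
      intro hk
      have h := ih (by omega)
      have e1 : s (I + (k + 1)) = s (I + k) + (-1 : ℝ) ^ (I + k + 1) * C (I + k + 1) :=
        hstep (I + k)
      have e2 : ∑ j ∈ Ioc I (I + (k + 1)), C j = (∑ j ∈ Ioc I (I + k), C j) + C (I + k + 1) := by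
        rw [← add_assoc]
        exact Finset.sum_Ioc_succ_top (by omega) C
      rw [e1, e2]
      have e3 : |(-1 : ℝ) ^ (I + k + 1) * C (I + k + 1)| = C (I + k + 1) := by
        rw [abs_mul, abs_pow, abs_neg, abs_one, one_pow, one_mul, abs_of_nonneg (hC _)]
      calc |s (I + k) + (-1 : ℝ) ^ (I + k + 1) * C (I + k + 1) - s I|
          = |(s (I + k) - s I) + (-1 : ℝ) ^ (I + k + 1) * C (I + k + 1)| := by
            congr 1; ring
        _ ≤ |s (I + k) - s I| + |(-1 : ℝ) ^ (I + k + 1) * C (I + k + 1)| := abs_add_le _ _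
        _ ≤ _ := by rw [e3]; linarith
  intro i hi
  rw [← hs]
  rcases Nat.eq_zero_or_pos i with h | h
  · rw [h, s0, abs_one]
  · rcases Nat.lt_or_ge I i with hlt | hge
    · obtain ⟨k, rfl⟩ : ∃ k, i = I + k := ⟨i - I, by omega⟩
      have h3 := htail' k hi
      have h4 : ∑ j ∈ Ioc I (I + k), C j ≤ ∑ j ∈ Ioc I m, C j :=
        Finset.sum_le_sum_of_subset_of_nonneg (Finset.Ioc_subset_Ioc_right hi)
          fun j _ _ => hC j
      obtain ⟨h5, h6⟩ := hrange I (by omega) le_rfl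
      rw [abs_le] at h3 ⊢
      constructor <;> linarith [h3.1, h3.2]
    · obtain ⟨h5, h6⟩ := hrange i h hge
      rw [abs_le]
      constructor <;> linarith

end Pool.Agent.H30S
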