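import Pool.Agent.H30S.Defs

set_option autoImplicit false

open Finset

namespace Pool.Agent.H30S

namespace SeqH

variable {N : ℕ}

lemma ang_le {i : ℕ} (hN : 1 ≤ N) (hi : i ≤ N) : Real.pi * i / (2 * N) ≤ Real.pi / 2 := by
  have hN' : (0 : ℝ) < N := by exact_mod_cast hN
  have hi' : (i : ℝ) ≤ N := by exact_mod_cast hi
  rw [div_le_div_iff₀ (by positivity) (by norm_num)]
  have := Real.pi_pos
  nlinarith

lemma ang_nonneg (i : ℕ) : 0 ≤ Real.pi * i / (2 * N) := by positivity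

lemma sin_ang_pos {i : ℕ} (hi1 : 1 ≤ i) (hi : i ≤ N) : 0 < Real.sin (Real.pi * i / (2 * N)) := by
  have hN : 1 ≤ N := hi1.trans hi
  have hN' : (0 : ℝ) < N := by exact_mod_cast hN
  have hi' : (0 : ℝ) < i := by exact_mod_cast hi1
  apply Real.sin_pos_of_pos_of_lt_pi (by positivity)
  have := ang_le hN hi
  have := Real.pi_pos
  linarith

lemma xs_pos {i : ℕ} (hi1 : 1 ≤ i) (hi : i ≤ N) : 0 < xs N i := pow_pos (sin_ang_pos hi1 hi) 2

lemma xs_lt {i j : ℕ} (hij : i < j) (hj : j ≤ N) : xs N i < xs N j := by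
  have hN : 1 ≤ N := by omega
  have hN' : (0 : ℝ) < N := by exact_mod_cast hN
  have hp := Real.pi_pos
  have h1 : Real.pi * i / (2 * N) < Real.pi * j / (2 * N) := by
    have : (i : ℝ) < j := by exact_mod_cast hij
    gcongr
  have h2 := ang_le hN hj
  have h0 := ang_nonneg (N := N) i
  have hs : Real.sin (Real.pi * i / (2 * N)) < Real.sin (Real.pi * j / (2 * N)) :=
    Real.strictMonoOn_sin ⟨by linarith, by linarith⟩ ⟨by linarith, h2⟩ h1
  have h3 : 0 ≤ Real.sin (Real.pi * i / (2 * N)) :=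
    Real.sin_nonneg_of_nonneg_of_le_pi h0 (by linarith)
  unfold xs
  exact pow_lt_pow_left₀ hs h3 two_ne_zero

lemma xs_le (i : ℕ) : xs N i ≤ (Real.pi * i / (2 * N)) ^ 2 := by
  unfold xs
  rw [← sq_abs (Real.sin _), ← sq_abs (Real.pi * i / (2 * N))]
  apply pow_le_pow_left₀ (abs_nonneg _)
  exact Real.abs_sin_le_abs

/-- `sin x / x` is decreasing: `i² xs (i+1) ≤ (i+1)² xs i` -/
lemma ratio_small {i : ℕ} (hi : i + 1 ≤ N) :
    ((i : ℝ) ^ 2) * xs N (i + 1) ≤ ((i + 1 : ℕ) : ℝ) ^ 2 * xs N i := by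
  have hN : 1 ≤ N := by omega
  have hp := Real.pi_pos
  have h0 := ang_nonneg (N := N) (i + 1)
  have h2 := ang_le hN hi
  have hi1 : (0 : ℝ) < (i : ℝ) + 1 := by positivity
  -- concavity
  have hc0 := (strictConcaveOn_sin_Icc.concaveOn).2
  have hm1 : (0 : ℝ) ∈ Set.Icc (0 : ℝ) Real.pi := ⟨le_rfl, hp.le⟩
  have hm2 : Real.pi * ((i + 1 : ℕ) : ℝ) / (2 * N) ∈ Set.Icc (0 : ℝ) Real.pi := ⟨h0, by linarith⟩
  have ha : (0 : ℝ) ≤ 1 / ((i : ℝ) + 1) := by positivity
  have hb : (0 : ℝ) ≤ (i : ℝ) / ((i : ℝ) + 1) := by positivity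
  have hab : (1 : ℝ) / ((i : ℝ) + 1) + (i : ℝ) / ((i : ℝ) + 1) = 1 := by field_simp; ring
  have hc := hc0 hm1 hm2 ha hb hab
  simp only [smul_eq_mul, Real.sin_zero, mul_zero, zero_add] at hc
  have harg : (i : ℝ) / ((i : ℝ) + 1) * (Real.pi * ((i + 1 : ℕ) : ℝ) / (2 * N)) = Real.pi * i / (2 * N) := by
    push_cast
    field_simp
  rw [harg] at hc
  have h3 : (i : ℝ) * Real.sin (Real.pi * ((i + 1 : ℕ) : ℝ) / (2 * N)) ≤
      ((i : ℝ) + 1) * Real.sin (Real.pi * i / (2 * N)) := by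
    rw [div_mul_eq_mul_div, div_le_iff₀ hi1] at hc
    linarith
  have h4 : 0 ≤ Real.sin (Real.pi * ((i + 1 : ℕ) : ℝ) / (2 * N)) :=
    Real.sin_nonneg_of_nonneg_of_le_pi h0 (by linarith)
  have h5 := pow_le_pow_left₀ (mul_nonneg (Nat.cast_nonneg i) h4) h3 2
  unfold xs
  rw [mul_pow, mul_pow] at h5
  push_cast at h5 ⊢
  exact h5

/-- the sequence of integer nodes -/
noncomputable def e (N K : ℕ) : ℕ → ℕ
  | 0 => 0
  | (i + 1) => if i < K then (i + 1) ^ 2 else ⌈(e N K i : ℝ) * xs N (i + 1) / xs N i⌉₊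

lemma e_small {K i : ℕ} (h : i ≤ K) : e N K i = i ^ 2 := by
  cases i with
  | zero => simp [e]
  | succ i => rw [e, if_pos (by omega)]

lemma e_ge {K i : ℕ} (h : K ≤ i) :
    (e N K i : ℝ) * xs N (i + 1) / xs N i ≤ e N K (i + 1) := by
  conv_rhs => rw [e, if_neg (by omega)]
  exact Nat.le_ceil _

lemma e_le {K i : ℕ} (hK : 1 ≤ K) (h : K ≤ i) (hi : i + 1 ≤ N) :
    (e N K (i + 1) : ℝ) ≤ (e N K i : ℝ) * xs N (i + 1) / xs N i + 1 := by
  conv_lhs => rw [e, if_neg (by omega)]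
  have h1 : 0 < xs N (i + 1) := xs_pos (by omega) hi
  have h2 : 0 < xs N i := xs_pos (by omega) (by omega)
  exact (Nat.ceil_lt_add_one (by positivity)).le

lemma e_pos {K i : ℕ} (hK : 1 ≤ K) (hi1 : 1 ≤ i) (hi : i ≤ N) : 0 < e N K i := by
  induction i, hi1 using Nat.le_induction with
  | base => rw [e_small hK]; norm_num
  | succ i hi1 ih =>
    rcases lt_or_ge i K with h | h
    · rw [e_small (by omega)]; positivity
    · have h0 := ih (by omega)
      have h1 : 0 < xs N (i + 1) := xs_pos (by omega) hi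
      have h2 : 0 < xs N i := xs_pos hi1 (by omega)
      have h3 := e_ge (N := N) h
      have h4 : (0 : ℝ) < e N K i := by exact_mod_cast h0
      have h5 : (0 : ℝ) < e N K (i + 1) := lt_of_lt_of_le (by positivity) h3
      exact_mod_cast h5

lemma e_lt {K i : ℕ} (hK : 1 ≤ K) (hi : i + 1 ≤ N) : e N K i < e N K (i + 1) := by
  rcases lt_or_ge i K with h | h
  · rw [e_small (by omega), e_small (by omega)]
    nlinarith
  · have h0 := e_pos (N := N) hK (i := i) (by omega) (by omega)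
    have h2 : 0 < xs N i := xs_pos (by omega) (by omega)
    have h1 : xs N i < xs N (i + 1) := xs_lt (by omega) hi
    have h4 : (0 : ℝ) < e N K i := by exact_mod_cast h0
    have h5 : (e N K i : ℝ) < (e N K i : ℝ) * xs N (i + 1) / xs N i := by
      rw [lt_div_iff₀ h2]
      exact mul_lt_mul_of_pos_left h1 h4
    have h6 : (e N K i : ℝ) < e N K (i + 1) := lt_of_lt_of_le h5 (e_ge h)
    exact_mod_cast h6

lemma e_step {K i : ℕ} (hK : 1 ≤ K) (hi1 : 1 ≤ i) (hi : i + 1 ≤ N) :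
    (e N K i : ℝ) * xs N (i + 1) ≤ e N K (i + 1) * xs N i := by
  rcases lt_or_ge i K with h | h
  · rw [e_small (by omega), e_small (by omega)]
    have := ratio_small hi
    push_cast at this ⊢
    exact this
  · have h2 : 0 < xs N i := xs_pos (by omega) (by omega)
    have := e_ge (N := N) h
    rwa [div_le_iff₀ h2] at this

lemma e_mono {K l l' : ℕ} (hK : 1 ≤ K) (hl : 1 ≤ l) (hll : l ≤ l') (hl' : l' ≤ N) :
    (e N K l : ℝ) * xs N l' ≤ e N K l' * xs N l := by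
  induction l', hll using Nat.le_induction with
  | base => exact le_rfl
  | succ l' hll ih =>
    have h1 := ih (by omega)
    have h2 := e_step (N := N) hK (i := l') (by omega) hl'
    have p0 : 0 < xs N l := xs_pos hl (by omega)
    have p1 : 0 < xs N l' := xs_pos (by omega) (by omega)
    have p2 : 0 < xs N (l' + 1) := xs_pos (by omega) hl'
    have h3 : (e N K l : ℝ) * xs N (l' + 1) * xs N l' ≤ e N K (l' + 1) * xs N l * xs N l' := by
      calc (e N K l : ℝ) * xs N (l' + 1) * xs N l' = (e N K l : ℝ) * xs N l' * xs N (l' + 1) := by ring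
        _ ≤ e N K l' * xs N l * xs N (l' + 1) := mul_le_mul_of_nonneg_right h1 p2.le
        _ = (e N K l' * xs N (l' + 1)) * xs N l := by ring
        _ ≤ (e N K (l' + 1) * xs N l') * xs N l := mul_le_mul_of_nonneg_right h2 p0.le
        _ = e N K (l' + 1) * xs N l * xs N l' := by ring
    exact le_of_mul_le_mul_right h3 p1

lemma e_bound {K m : ℕ} (hK : 1 ≤ K) (hKm : K ≤ m) (hm : m ≤ N) :
    (e N K m : ℝ) / xs N m ≤ (K : ℝ) ^ 2 / xs N K + ∑ l ∈ Ioc K m, 1 / xs N l := by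
  induction m, hKm using Nat.le_induction with
  | base =>
    rw [e_small le_rfl]
    simp
  | succ m hKm ih =>
    have h1 := ih (by omega)
    have h2 := e_le (N := N) hK hKm hm
    have p1 : 0 < xs N m := xs_pos (by omega) (by omega)
    have p2 : 0 < xs N (m + 1) := xs_pos (by omega) hm
    rw [← Finset.insert_Ioc_right_eq_Ioc_add_one (by omega), Finset.sum_insert (by simp)]
    have h3 : (e N K (m + 1) : ℝ) / xs N (m + 1) ≤ (e N K m : ℝ) / xs N m + 1 / xs N (m + 1) := by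
      rw [div_le_iff₀ p2, add_mul, one_div, inv_mul_cancel₀ p2.ne']
      refine h2.trans (le_of_eq ?_)
      ring
    linarith

end SeqH

/-- MODULE H (the integer nodes). `e i = i²` for `i ≤ K`, `e (i+1) = ⌈e i * xs N (i+1) / xs N i⌉₊` for `i ≥ K`.
The ratio `e i / xs N i` is nondecreasing on `[1, m]`: for `i < K` because `sin x / x` is decreasing on
`(0, π/2]` (concavity of `sin` on `[0, π]`: `sin (w i) ≥ (i/(i+1)) sin (w (i+1))`), for `i ≥ K` by the ceiling, and there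
it increases by at most `1 / xs N (i+1)` in each step. `e (i+1) > e i` since `xs N` is strictly increasing on `[0, N]`.
`xs N 1 ≤ (π / 2N)²` gives the last item. -/
theorem exists_nodes (N K m : ℕ) (hK : 1 ≤ K) (hKm : K ≤ m) (hm : m < N) :
    ∃ e : ℕ → ℕ, (∀ i ≤ K, e i = i ^ 2) ∧ (∀ i < m, e i < e (i + 1)) ∧
      (∀ l l', 1 ≤ l → l ≤ l' → l' ≤ m → (e l : ℝ) * xs N l' ≤ e l' * xs N l) ∧
      (e m : ℝ) ≤ (K : ℝ) ^ 2 / xs N K + ∑ l ∈ Ioc K m, 1 / xs N l ∧
      (∀ l, 1 ≤ l → l ≤ m → xs N l ≤ (Real.pi / (2 * N)) ^ 2 * e l) := by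
  refine ⟨SeqH.e N K, fun i hi => SeqH.e_small hi, fun i hi => SeqH.e_lt hK (by omega),
    fun l l' h1 h2 h3 => SeqH.e_mono hK h1 h2 (by omega), ?_, ?_⟩
  · refine le_trans ?_ (SeqH.e_bound hK hKm hm.le)
    have p : 0 < xs N m := SeqH.xs_pos (by omega) hm.le
    rw [le_div_iff₀ p]
    have h1 : xs N m ≤ 1 := Real.sin_sq_le_one _
    have h0 : (0 : ℝ) ≤ SeqH.e N K m := Nat.cast_nonneg _
    nlinarith
  · intro l hl hlm
    have h1 := SeqH.e_mono (N := N) hK (l := 1) (l' := l) le_rfl hl (by omega)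
    rw [SeqH.e_small hK] at h1
    have h2 := SeqH.xs_le (N := N) 1
    have h0 : (0 : ℝ) ≤ SeqH.e N K l := Nat.cast_nonneg _
    calc xs N l = ((1 ^ 2 : ℕ) : ℝ) * xs N l := by norm_num
      _ ≤ SeqH.e N K l * xs N 1 := h1
      _ ≤ SeqH.e N K l * (Real.pi * (1 : ℕ) / (2 * N)) ^ 2 := mul_le_mul_of_nonneg_left h2 h0
      _ = (Real.pi / (2 * N)) ^ 2 * SeqH.e N K l := by push_cast; ring

end Pool.Agent.H30S
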