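import Pool.Agent.H30S.Defs

set_option autoImplicit false

open Finset

namespace Pool.Agent.H30S

lemma one_sub_div_le {x : ℝ} (h0 : 0 ≤ x) (h1 : x < 1) : (1 - x) / (1 + x) ≤ Real.exp (-(2 * x)) := by
  have hs := Real.hasSum_log_sub_log_of_abs_lt_one (x := x) (by rw [abs_of_nonneg h0]; exact h1)
  have h2 : 2 * x ≤ Real.log (1 + x) - Real.log (1 - x) := by
    have := hs.summable.sum_le_tsum (Finset.range 1) (fun k _ => by positivity)
    rw [hs.tsum_eq] at this
    simpa using this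
  have h3 : (1 - x) / (1 + x) = Real.exp (Real.log (1 - x) - Real.log (1 + x)) := by
    rw [Real.exp_sub, Real.exp_log (by linarith), Real.exp_log (by linarith)]
  rw [h3]
  apply Real.exp_le_exp.2
  linarith

lemma prod_add (i j : ℕ) :
    ∏ l ∈ range j, ((i : ℝ) + (l + 1)) = ((i + j).factorial : ℝ) / (i.factorial : ℝ) := by
  have hi : ((i.factorial : ℕ) : ℝ) ≠ 0 := by exact_mod_cast i.factorial_ne_zero
  induction j with
  | zero => simp [div_self hi]
  | succ j ih =>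
    rw [prod_range_succ, ih, ← add_assoc i j 1, Nat.factorial_succ]
    push_cast
    field_simp
    ring

lemma prod_sub : ∀ j r : ℕ,
    ∏ l ∈ range j, (((j + 1 + r : ℕ) : ℝ) - (l + 1)) = ((j + r).factorial : ℝ) / (r.factorial : ℝ) := by
  intro j
  induction j with
  | zero =>
    intro r
    have hi : ((r.factorial : ℕ) : ℝ) ≠ 0 := by exact_mod_cast r.factorial_ne_zero
    simp [div_self hi]
  | succ j ih =>
    intro r
    rw [prod_range_succ]
    have h := ih (r + 1)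
    have e1 : j + 1 + (r + 1) = j + 1 + 1 + r := by ring
    rw [e1] at h
    rw [h]
    have e2 : j + (r + 1) = j + 1 + r := by ring
    rw [e2, Nat.factorial_succ r]
    have hi : ((r.factorial : ℕ) : ℝ) ≠ 0 := by exact_mod_cast r.factorial_ne_zero
    push_cast
    have : ((r : ℝ) + 1) ≠ 0 := by positivity
    field_simp
    ring

/-- the squares below `i` -/
lemma prod_sq_base (j : ℕ) :
    ∏ l ∈ range j, ((l : ℝ) + 1) ^ 2 / (((j + 1 : ℕ) : ℝ) ^ 2 - ((l : ℝ) + 1) ^ 2) =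
      2 * ((j + 1).factorial : ℝ) ^ 2 / ((2 * (j + 1)).factorial : ℝ) := by
  have h1 : ∏ l ∈ range j, ((l : ℝ) + 1) = (j.factorial : ℝ) := by
    have := prod_add 0 j
    simpa using this
  have h2 := prod_add (j + 1) j
  have h3 := prod_sub j 0
  have h4 : ∀ l ∈ range j, ((l : ℝ) + 1) ^ 2 / (((j + 1 : ℕ) : ℝ) ^ 2 - ((l : ℝ) + 1) ^ 2) =
      ((l : ℝ) + 1) * ((l : ℝ) + 1) / ((((j + 1 : ℕ) : ℝ) + (l + 1)) * (((j + 1 + 0 : ℕ) : ℝ) - (l + 1))) := by
    intro l _
    congr 1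
    · ring
    · push_cast; ring
  rw [prod_congr rfl h4, prod_div_distrib, prod_mul_distrib, prod_mul_distrib, h1, h2, h3]
  have e1 : (2 * (j + 1)).factorial = (2 * j + 2) * (j + 1 + j).factorial := by
    rw [show 2 * (j + 1) = (j + 1 + j) + 1 by ring, Nat.factorial_succ]
    congr 1
    ring
  rw [e1, Nat.factorial_succ j]
  have hj : ((j.factorial : ℕ) : ℝ) ≠ 0 := by exact_mod_cast j.factorial_ne_zero
  have hj2 : (((j + 1 + j).factorial : ℕ) : ℝ) ≠ 0 := by exact_mod_cast (j + 1 + j).factorial_ne_zero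
  have hj3 : ((j : ℝ) + 1) ≠ 0 := by positivity
  push_cast
  simp only [Nat.factorial_zero, Nat.cast_one, add_zero, div_one]
  field_simp

/-- the squares other than `i` up to `i + d` -/
lemma prod_sq (i : ℕ) (hi : 1 ≤ i) : ∀ d : ℕ,
    ∏ l ∈ (Icc 1 (i + d)).erase i, (l : ℝ) ^ 2 / |(l : ℝ) ^ 2 - (i : ℝ) ^ 2| =
      2 * ((i + d).factorial : ℝ) ^ 2 / ((d.factorial : ℝ) * ((2 * i + d).factorial : ℝ)) := by
  intro d
  induction d with
  | zero =>
    obtain ⟨j, rfl⟩ : ∃ j, i = j + 1 := ⟨i - 1, by omega⟩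
    have h := prod_sq_base j
    have e1 : (Icc 1 (j + 1 + 0)).erase (j + 1) = (range j).image (fun l => l + 1) := by
      ext l
      simp only [mem_erase, mem_Icc, mem_image, mem_range]
      constructor
      · intro ⟨h1, h2, h3⟩
        exact ⟨l - 1, by omega, by omega⟩
      · rintro ⟨a, ha, rfl⟩
        omega
    rw [e1, prod_image (fun a _ b _ hab => by simpa using hab)]
    simp only [add_zero, Nat.factorial_zero, Nat.cast_one, one_mul]
    rw [← h]
    apply prod_congr rfl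
    intro l hl
    rw [mem_range] at hl
    have hl' : (l : ℝ) + 1 ≤ ((j + 1 : ℕ) : ℝ) := by exact_mod_cast (by omega : l + 1 ≤ j + 1)
    have hl0 : (0 : ℝ) ≤ (l : ℝ) + 1 := by positivity
    congr 1
    · push_cast; ring
    · rw [abs_sub_comm, abs_of_nonneg]
      · push_cast; ring
      · push_cast
        push_cast at hl'
        nlinarith
  | succ d ih =>
    have e1 : (Icc 1 (i + (d + 1))).erase i = insert (i + (d + 1)) ((Icc 1 (i + d)).erase i) := by
      ext l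
      simp only [mem_erase, mem_Icc, mem_insert]
      omega
    rw [e1, prod_insert (by simp), ih]
    have h1 : |(((i + (d + 1) : ℕ) : ℝ)) ^ 2 - (i : ℝ) ^ 2| = ((d : ℝ) + 1) * (2 * i + d + 1) := by
      rw [abs_of_nonneg]
      · push_cast; ring
      · push_cast
        have : (0 : ℝ) ≤ i := by positivity
        have : (0 : ℝ) ≤ d := by positivity
        nlinarith [mul_nonneg ‹(0 : ℝ) ≤ (i : ℝ)› ‹(0 : ℝ) ≤ (d : ℝ)›]
    rw [h1, show i + (d + 1) = (i + d) + 1 by ring, show 2 * i + (d + 1) = (2 * i + d) + 1 by ring,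
      Nat.factorial_succ, Nat.factorial_succ, Nat.factorial_succ]
    have hd : ((d.factorial : ℕ) : ℝ) ≠ 0 := by exact_mod_cast d.factorial_ne_zero
    have hd2 : (((2 * i + d).factorial : ℕ) : ℝ) ≠ 0 := by exact_mod_cast (2 * i + d).factorial_ne_zero
    have hd3 : ((d : ℝ) + 1) ≠ 0 := by positivity
    have hd4 : (2 * (i : ℝ) + d + 1) ≠ 0 := by positivity
    push_cast
    field_simp

/-- ratio of two consecutive ones -/
lemma prod_sq_succ {K i : ℕ} (hi : 1 ≤ i) (hiK : i + 1 ≤ K) :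
    ∏ l ∈ (Icc 1 K).erase (i + 1), (l : ℝ) ^ 2 / |(l : ℝ) ^ 2 - ((i + 1 : ℕ) : ℝ) ^ 2| =
      (∏ l ∈ (Icc 1 K).erase i, (l : ℝ) ^ 2 / |(l : ℝ) ^ 2 - (i : ℝ) ^ 2|) *
        (((K : ℝ) - i) / (K + i + 1)) := by
  obtain ⟨d, rfl⟩ : ∃ d, K = (i + 1) + d := ⟨K - (i + 1), by omega⟩
  have h1 := prod_sq (i + 1) (by omega) d
  have h2 := prod_sq i hi (d + 1)
  rw [h1]
  rw [show i + 1 + d = i + (d + 1) by ring]
  rw [h2]
  rw [show 2 * (i + 1) + d = (2 * i + (d + 1)) + 1 by ring, Nat.factorial_succ d,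
    Nat.factorial_succ (2 * i + (d + 1))]
  have hd : ((d.factorial : ℕ) : ℝ) ≠ 0 := by exact_mod_cast d.factorial_ne_zero
  have hd2 : (((2 * i + (d + 1)).factorial : ℕ) : ℝ) ≠ 0 := by
    exact_mod_cast (2 * i + (d + 1)).factorial_ne_zero
  have hd3 : ((d : ℝ) + 1) ≠ 0 := by positivity
  have hd4 : (2 * (i : ℝ) + (d + 1) + 1) ≠ 0 := by positivity
  have hd5 : ((i : ℝ) + (d + 1) + i + 1) ≠ 0 := by positivity
  push_cast
  field_simp
  ring

lemma cabs_split {K m i : ℕ} (v : ℕ → ℝ) (hK : K ≤ m) (hi : i ≤ K)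
    (hsq : ∀ l ≤ K, v l = (l : ℝ) ^ 2) (hbig : ∀ l, K < l → l ≤ m → (K : ℝ) ^ 2 < v l) :
    cabs v m i = (∏ l ∈ (Icc 1 K).erase i, (l : ℝ) ^ 2 / |(l : ℝ) ^ 2 - (i : ℝ) ^ 2|) *
      ∏ l ∈ Ioc K m, v l / (v l - (i : ℝ) ^ 2) := by
  have e1 : (Icc 1 m).erase i = (Icc 1 K).erase i ∪ Ioc K m := by
    ext l
    simp only [mem_erase, mem_Icc, mem_union, mem_Ioc]
    omega
  unfold cabs
  rw [e1, prod_union]
  · congr 1
    · apply prod_congr rfl
      intro l hl
      simp only [mem_erase, mem_Icc] at hl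
      rw [hsq l hl.2.2, hsq i hi]
    · apply prod_congr rfl
      intro l hl
      rw [mem_Ioc] at hl
      rw [hsq i hi, abs_of_pos]
      have h1 := hbig l hl.1 hl.2
      have h2 : (i : ℝ) ≤ K := by exact_mod_cast hi
      have h3 : (0 : ℝ) ≤ i := by positivity
      nlinarith
  · rw [disjoint_left]
    intro l hl
    simp only [mem_erase, mem_Icc] at hl
    simp only [mem_Ioc]
    omega

/-- MODULE F (the coefficients with small index, nodes `v l = l²` for `l ≤ K`). -/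
theorem cabs_small {K m I : ℕ} {μ : ℝ} (v : ℕ → ℝ) (hK : 1 ≤ K) (hKm : K ≤ m) (hI : 1 ≤ I) (hIK : I ≤ K)
    (hsq : ∀ l ≤ K, v l = (l : ℝ) ^ 2) (hbig : ∀ l, K < l → l ≤ m → (K : ℝ) ^ 2 < v l)
    (hS : ∑ l ∈ Ioc K m, 1 / (v l - (I : ℝ) ^ 2) ≤ 2 / (2 * K + 1) - μ) :
    cabs v m 1 ≤ 2 * Real.exp (-μ) ∧ 1 ≤ cabs v m 1 ∧
      ∀ i, 1 ≤ i → i + 1 ≤ I → cabs v m (i + 1) ≤ cabs v m i * Real.exp (-((2 * i + 1) * μ)) := by
  have hKr : (1 : ℝ) ≤ K := by exact_mod_cast hK
  have hIr : (1 : ℝ) ≤ I := by exact_mod_cast hI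
  have hIKr : (I : ℝ) ≤ K := by exact_mod_cast hIK
  have hposI : ∀ l ∈ Ioc K m, 0 < v l - (I : ℝ) ^ 2 := by
    intro l hl
    rw [mem_Ioc] at hl
    have := hbig l hl.1 hl.2
    nlinarith
  have hvpos : ∀ l ∈ Ioc K m, 0 < v l := by
    intro l hl
    have := hposI l hl
    nlinarith
  -- the general step
  have hstep : ∀ i : ℕ, i + 1 ≤ I →
      ∏ l ∈ Ioc K m, v l / (v l - ((i + 1 : ℕ) : ℝ) ^ 2) ≤
        (∏ l ∈ Ioc K m, v l / (v l - (i : ℝ) ^ 2)) *
          Real.exp ((2 * i + 1) * (2 / (2 * K + 1) - μ)) := by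
    intro i hi
    have hir : (i : ℝ) + 1 ≤ I := by exact_mod_cast hi
    have hi0 : (0 : ℝ) ≤ i := by positivity
    have h1 : ∏ l ∈ Ioc K m, v l / (v l - ((i + 1 : ℕ) : ℝ) ^ 2) ≤
        ∏ l ∈ Ioc K m, (v l / (v l - (i : ℝ) ^ 2) *
          Real.exp ((2 * i + 1) * (1 / (v l - (I : ℝ) ^ 2)))) := by
      apply prod_le_prod
      · intro l hl
        have h2 := hposI l hl
        have h3 := hvpos l hl
        push_cast
        have : 0 < v l - ((i : ℝ) + 1) ^ 2 := by nlinarith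
        positivity
      · intro l hl
        have h2 := hposI l hl
        have h3 := hvpos l hl
        push_cast
        have h4 : 0 < v l - ((i : ℝ) + 1) ^ 2 := by nlinarith
        have h5 : 0 < v l - (i : ℝ) ^ 2 := by nlinarith
        have h6 : v l / (v l - ((i : ℝ) + 1) ^ 2) =
            v l / (v l - (i : ℝ) ^ 2) * (1 + (2 * i + 1) * (1 / (v l - ((i : ℝ) + 1) ^ 2))) := by
          field_simp
          ring
        rw [h6]
        apply mul_le_mul_of_nonneg_left _ (by positivity)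
        have h7 : 1 / (v l - ((i : ℝ) + 1) ^ 2) ≤ 1 / (v l - (I : ℝ) ^ 2) := by
          apply one_div_le_one_div_of_le h2
          nlinarith
        have h8 := Real.add_one_le_exp ((2 * (i : ℝ) + 1) * (1 / (v l - (I : ℝ) ^ 2)))
        have h9 : (2 * (i : ℝ) + 1) * (1 / (v l - ((i : ℝ) + 1) ^ 2)) ≤
            (2 * (i : ℝ) + 1) * (1 / (v l - (I : ℝ) ^ 2)) :=
          mul_le_mul_of_nonneg_left h7 (by positivity)
        linarith
    refine h1.trans ?_
    rw [prod_mul_distrib]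
    apply mul_le_mul_of_nonneg_left
    · rw [← Real.exp_sum, ← mul_sum]
      apply Real.exp_le_exp.2
      exact mul_le_mul_of_nonneg_left hS (by positivity)
    · apply prod_nonneg
      intro l hl
      have h2 := hposI l hl
      have h3 := hvpos l hl
      have h5 : 0 < v l - (i : ℝ) ^ 2 := by nlinarith
      positivity
  have hfrac : ∀ i : ℕ, i + 1 ≤ I → ((K : ℝ) - i) / (K + i + 1) ≤
      Real.exp (-((2 * i + 1) * (2 / (2 * K + 1)))) := by
    intro i hi
    have hir : (i : ℝ) + 1 ≤ I := by exact_mod_cast hi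
    have hi0 : (0 : ℝ) ≤ i := by positivity
    have hx0 : (0 : ℝ) ≤ (2 * i + 1) / (2 * K + 1) := by positivity
    have hx1 : (2 * (i : ℝ) + 1) / (2 * K + 1) < 1 := by
      rw [div_lt_one (by positivity)]
      linarith
    have h := one_sub_div_le hx0 hx1
    have h1 : ((K : ℝ) - i) / (K + i + 1) =
        (1 - (2 * (i : ℝ) + 1) / (2 * K + 1)) / (1 + (2 * (i : ℝ) + 1) / (2 * K + 1)) := by
      have : (2 * (K : ℝ) + 1) ≠ 0 := by positivity
      have h2 : (0 : ℝ) < (K : ℝ) + i + 1 := by positivity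
      have h3 : (1 : ℝ) + (2 * (i : ℝ) + 1) / (2 * K + 1) = 2 * (K + i + 1) / (2 * K + 1) := by
        field_simp
        ring
      rw [h3]
      field_simp
      ring
    rw [h1]
    refine h.trans (le_of_eq ?_)
    congr 1
    ring
  refine ⟨?_, ?_, ?_⟩
  · rw [cabs_split v hKm hK hsq hbig]
    have h1 : ∏ l ∈ (Icc 1 K).erase 1, (l : ℝ) ^ 2 / |(l : ℝ) ^ 2 - ((1 : ℕ) : ℝ) ^ 2| =
        2 * (((K : ℝ) - (0 : ℕ)) / (K + (0 : ℕ) + 1)) := by
      obtain ⟨d, rfl⟩ : ∃ d, K = 1 + d := ⟨K - 1, by omega⟩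
      rw [prod_sq 1 le_rfl d]
      rw [show 2 * 1 + d = (1 + d) + 1 by ring, Nat.factorial_succ (1 + d),
        show 1 + d = d + 1 by ring, Nat.factorial_succ d]
      have hd : ((d.factorial : ℕ) : ℝ) ≠ 0 := by exact_mod_cast d.factorial_ne_zero
      have hd3 : ((d : ℝ) + 1) ≠ 0 := by positivity
      have hd4 : ((d : ℝ) + 1 + 1) ≠ 0 := by positivity
      push_cast
      field_simp
      ring
    rw [h1]
    have h2 := hstep 0 (by omega)
    have h3 := hfrac 0 (by omega)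
    have h4 : ∏ l ∈ Ioc K m, v l / (v l - ((0 : ℕ) : ℝ) ^ 2) = 1 := by
      apply prod_eq_one
      intro l hl
      have := (hvpos l hl).ne'
      simp [div_self this]
    rw [h4, one_mul] at h2
    simp only [zero_add] at h2
    have h5 : 0 ≤ ∏ l ∈ Ioc K m, v l / (v l - ((1 : ℕ) : ℝ) ^ 2) := by
      apply prod_nonneg
      intro l hl
      have h2 := hposI l hl
      have h3 := hvpos l hl
      have h5 : 0 < v l - ((1 : ℕ) : ℝ) ^ 2 := by push_cast; nlinarith
      positivity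
    calc 2 * (((K : ℝ) - (0 : ℕ)) / (K + (0 : ℕ) + 1)) * ∏ l ∈ Ioc K m, v l / (v l - ((1 : ℕ) : ℝ) ^ 2)
        ≤ 2 * Real.exp (-((2 * ((0 : ℕ) : ℝ) + 1) * (2 / (2 * K + 1)))) *
          Real.exp ((2 * ((0 : ℕ) : ℝ) + 1) * (2 / (2 * K + 1) - μ)) := by
          apply mul_le_mul _ h2 h5 (by positivity)
          linarith
      _ = 2 * Real.exp (-μ) := by
          rw [mul_assoc, ← Real.exp_add]
          congr 2
          push_cast
          ring
  · rw [cabs_split v hKm hK hsq hbig]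
    have h1 : ∏ l ∈ (Icc 1 K).erase 1, (l : ℝ) ^ 2 / |(l : ℝ) ^ 2 - ((1 : ℕ) : ℝ) ^ 2| ≥ 1 := by
      have : ∏ l ∈ (Icc 1 K).erase 1, (1 : ℝ) ≤
          ∏ l ∈ (Icc 1 K).erase 1, (l : ℝ) ^ 2 / |(l : ℝ) ^ 2 - ((1 : ℕ) : ℝ) ^ 2| := by
        apply prod_le_prod
        · intro l _
          exact zero_le_one
        · intro l hl
          simp only [mem_erase, mem_Icc] at hl
          have hl2 : (2 : ℝ) ≤ l := by exact_mod_cast (by omega : 2 ≤ l)
          have : 0 < (l : ℝ) ^ 2 - ((1 : ℕ) : ℝ) ^ 2 := by push_cast; nlinarith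
          rw [abs_of_pos this, one_le_div this]
          push_cast
          linarith
      simpa using this
    have h2 : (1 : ℝ) ≤ ∏ l ∈ Ioc K m, v l / (v l - ((1 : ℕ) : ℝ) ^ 2) := by
      have : ∏ l ∈ Ioc K m, (1 : ℝ) ≤ ∏ l ∈ Ioc K m, v l / (v l - ((1 : ℕ) : ℝ) ^ 2) := by
        apply prod_le_prod
        · intro l _
          exact zero_le_one
        · intro l hl
          have h2 := hposI l hl
          have : 0 < v l - ((1 : ℕ) : ℝ) ^ 2 := by push_cast; nlinarith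
          rw [one_le_div this]
          push_cast
          linarith
      simpa using this
    nlinarith
  · intro i hi hiI
    rw [cabs_split v hKm (by omega) hsq hbig, cabs_split v hKm (by omega) hsq hbig,
      prod_sq_succ hi (by omega)]
    have h2 := hstep i hiI
    have h3 := hfrac i hiI
    have hA : 0 ≤ ∏ l ∈ (Icc 1 K).erase i, (l : ℝ) ^ 2 / |(l : ℝ) ^ 2 - (i : ℝ) ^ 2| := by
      apply prod_nonneg
      intro l _
      positivity
    have h5 : 0 ≤ ∏ l ∈ Ioc K m, v l / (v l - ((i + 1 : ℕ) : ℝ) ^ 2) := by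
      apply prod_nonneg
      intro l hl
      have h2 := hposI l hl
      have h3 := hvpos l hl
      have hir : (i : ℝ) + 1 ≤ I := by exact_mod_cast hiI
      have h5 : 0 < v l - ((i + 1 : ℕ) : ℝ) ^ 2 := by push_cast; nlinarith
      positivity
    calc (∏ l ∈ (Icc 1 K).erase i, (l : ℝ) ^ 2 / |(l : ℝ) ^ 2 - (i : ℝ) ^ 2|) *
          (((K : ℝ) - i) / (K + i + 1)) * ∏ l ∈ Ioc K m, v l / (v l - ((i + 1 : ℕ) : ℝ) ^ 2)
        ≤ (∏ l ∈ (Icc 1 K).erase i, (l : ℝ) ^ 2 / |(l : ℝ) ^ 2 - (i : ℝ) ^ 2|) *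
          Real.exp (-((2 * i + 1) * (2 / (2 * K + 1)))) *
          ((∏ l ∈ Ioc K m, v l / (v l - (i : ℝ) ^ 2)) *
            Real.exp ((2 * i + 1) * (2 / (2 * K + 1) - μ))) := by
          apply mul_le_mul _ h2 h5 (by positivity)
          exact mul_le_mul_of_nonneg_left h3 hA
      _ = (∏ l ∈ (Icc 1 K).erase i, (l : ℝ) ^ 2 / |(l : ℝ) ^ 2 - (i : ℝ) ^ 2|) *
          (∏ l ∈ Ioc K m, v l / (v l - (i : ℝ) ^ 2)) * (Real.exp (-((2 * i + 1) * (2 / (2 * K + 1)))) *
            Real.exp ((2 * i + 1) * (2 / (2 * K + 1) - μ))) := by ring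
      _ = _ := by
          rw [← Real.exp_add]
          congr 2
          ring

end Pool.Agent.H30S
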