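import Pool.Agent.H30S.Comp
import Pool.Agent.H30S.Small
import Pool.Agent.H30S.Partial
import Pool.Agent.H30S.Seq
import Pool.Agent.H30S.Nodes
import Pool.Agent.H30S.CotSum

set_option autoImplicit false

open Finset Polynomial

namespace Pool.Agent.H30S

lemma log_bound {M : ℕ} (hM : 129 ≤ M) : 16 * (Nat.log 2 M + 1) + 1 ≤ M := by
  have h1 : 2 ^ Nat.log 2 M ≤ M := Nat.pow_log_le_self 2 (by omega)
  have h2 : ∀ L : ℕ, 8 ≤ L → 16 * (L + 1) + 1 ≤ 2 ^ L := by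
    intro L hL
    induction L, hL using Nat.le_induction with
    | base => norm_num
    | succ L hL ih =>
      rw [pow_succ]
      omega
  by_cases h : 8 ≤ Nat.log 2 M
  · exact (h2 _ h).trans h1
  · have : Nat.log 2 M ≤ 7 := by omega
    omega

lemma exp_neg_le {t : ℝ} (h0 : 0 ≤ t) (h1 : t ≤ 1) : Real.exp (-t) ≤ 1 - t / 2 := by
  rw [Real.exp_neg]
  have h2 := Real.add_one_le_exp t
  have h3 : (Real.exp t)⁻¹ ≤ (t + 1)⁻¹ := inv_anti₀ (by linarith) h2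
  refine h3.trans ?_
  rw [inv_le_iff_one_le_mul₀ (by linarith)]
  nlinarith

lemma pi_sq_le : Real.pi ^ 2 ≤ 10 := by
  have h := Real.pi_pos
  have h' := Real.pi_lt_d2
  nlinarith

lemma le_pi_sq : 9 ≤ Real.pi ^ 2 := by
  have h := Real.pi_gt_three
  nlinarith

lemma sin_sq_bound {z : ℝ} (hz0 : 0 < z) (hz1 : z ≤ 1) : z ^ 2 ≤ (1 + z ^ 2) * Real.sin z ^ 2 := by
  have hsin := Real.sin_gt_sub_cube hz0
  have hy0 : 0 ≤ z ^ 2 := by positivity
  have hy1 : z ^ 2 ≤ 1 := by nlinarith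
  have h0 : z - z ^ 3 / 6 = z * (1 - z ^ 2 / 6) := by ring
  have h2 : (z - z ^ 3 / 6) ^ 2 ≤ Real.sin z ^ 2 := by
    apply pow_le_pow_left₀ _ hsin.le
    rw [h0]
    exact mul_nonneg hz0.le (by linarith)
  have h3 : z ^ 2 ≤ (1 + z ^ 2) * (z - z ^ 3 / 6) ^ 2 := by
    have : (1 + z ^ 2) * (z - z ^ 3 / 6) ^ 2 = z ^ 2 * ((1 + z ^ 2) * (1 - z ^ 2 / 6) ^ 2) := by ring
    rw [this]
    have h4 : 1 ≤ (1 + z ^ 2) * (1 - z ^ 2 / 6) ^ 2 := by
      have h5 : (1 + z ^ 2) * (1 - z ^ 2 / 6) ^ 2 =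
          1 + z ^ 2 * (2 / 3 - 11 / 36 * z ^ 2) + (z ^ 2) ^ 3 / 36 := by ring
      rw [h5]
      have h6 : 0 ≤ z ^ 2 * (2 / 3 - 11 / 36 * z ^ 2) := mul_nonneg hy0 (by linarith)
      have h7 : 0 ≤ (z ^ 2) ^ 3 / 36 := by positivity
      linarith
    exact le_mul_of_one_le_right hy0 h4
  exact h3.trans (mul_le_mul_of_nonneg_left h2 (by positivity))

/-- the part of the degree coming from the squares -/
lemma deg_aux {M N K : ℕ} (hM : 129 ≤ M) (hN : N = M ^ 5) (hK : K = M ^ 4) :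
    (Real.pi / (2 * N)) ^ 2 * ((K : ℝ) ^ 2 / xs N K) ≤ 1 + 5 / 2 / (M : ℝ) ^ 2 := by
  have hMr : (129 : ℝ) ≤ M := by exact_mod_cast hM
  have hM0 : (0 : ℝ) < M := by linarith
  have hpi := Real.pi_pos
  have hpi4 := Real.pi_lt_d2
  have hNrM : (N : ℝ) = (M : ℝ) ^ 5 := by rw [hN]; push_cast; ring
  have hKrM : (K : ℝ) = (M : ℝ) ^ 4 := by rw [hK]; push_cast; ring
  have hzM : Real.pi * K / (2 * N) = Real.pi / (2 * M) := by
    rw [hNrM, hKrM]
    field_simp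
  have hz0 : 0 < Real.pi / (2 * (M : ℝ)) := by positivity
  have hz1 : Real.pi / (2 * (M : ℝ)) ≤ 1 := by
    rw [div_le_one (by positivity)]
    linarith
  have hs := sin_sq_bound hz0 hz1
  have hsp : 0 < Real.sin (Real.pi / (2 * (M : ℝ))) :=
    Real.sin_pos_of_pos_of_lt_pi hz0 (by linarith [Real.pi_gt_three])
  have hx : xs N K = Real.sin (Real.pi / (2 * (M : ℝ))) ^ 2 := by
    unfold xs
    rw [hzM]
  rw [hx, ← mul_div_assoc, div_le_iff₀ (by positivity)]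
  have h1 : (Real.pi / (2 * (N : ℝ))) ^ 2 * (K : ℝ) ^ 2 = (Real.pi / (2 * (M : ℝ))) ^ 2 := by
    rw [← hzM]
    ring
  rw [h1]
  refine hs.trans ?_
  apply mul_le_mul_of_nonneg_right _ (by positivity)
  have h4 : (Real.pi / (2 * (M : ℝ))) ^ 2 ≤ 5 / 2 / (M : ℝ) ^ 2 := by
    rw [div_pow, mul_pow, div_le_div_iff₀ (by positivity) (by positivity)]
    have := pi_sq_le
    have hM2 : (0 : ℝ) < (M : ℝ) ^ 2 := by positivity
    nlinarith
  linarith

/-- the degree -/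
lemma deg_bound {M N K m n : ℕ} {em S : ℝ} (hM : 129 ≤ M) (hN : N = M ^ 5) (hK : K = M ^ 4) (hm : m < N)
    (hn : 4 / Real.pi ^ 2 * ((M : ℝ) ^ 10 + 3 * (M : ℝ) ^ 8) ≤ (n : ℝ) + 1)
    (he : em ≤ (K : ℝ) ^ 2 / xs N K + S)
    (hS : (Real.pi / (2 * N)) ^ 2 * S ≤ 2 / (2 * K + 1) - (Real.pi / (2 * N)) ^ 2 * (N - m - 1)) :
    em ≤ n + 1 := by
  have hMr : (129 : ℝ) ≤ M := by exact_mod_cast hM
  have hM0 : (0 : ℝ) < M := by linarith
  have hpi := Real.pi_pos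
  have hNrM : (N : ℝ) = (M : ℝ) ^ 5 := by rw [hN]; push_cast; ring
  have hKrM : (K : ℝ) = (M : ℝ) ^ 4 := by rw [hK]; push_cast; ring
  have hKr : (0 : ℝ) < K := by rw [hKrM]; positivity
  have hNr : (0 : ℝ) < N := by rw [hNrM]; positivity
  have h1 := deg_aux hM hN hK
  set w : ℝ := Real.pi / (2 * N) with hw
  have hw0 : 0 < w := by positivity
  have h4 : w ^ 2 * em ≤ w ^ 2 * ((K : ℝ) ^ 2 / xs N K + S) :=
    mul_le_mul_of_nonneg_left he (by positivity)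
  have h5 : 2 / (2 * (K : ℝ) + 1) ≤ 1 / K := by
    rw [div_le_div_iff₀ (by positivity) hKr]
    linarith
  have h6 : 0 ≤ w ^ 2 * ((N : ℝ) - m - 1) := by
    apply mul_nonneg (by positivity)
    have : ((m + 1 : ℕ) : ℝ) ≤ N := by exact_mod_cast hm
    push_cast at this
    linarith
  have h7 : 1 / (K : ℝ) ≤ 1 / 2 / (M : ℝ) ^ 2 := by
    rw [hKrM, div_le_div_iff₀ (by positivity) (by positivity)]
    have hM2 : (2 : ℝ) ≤ (M : ℝ) ^ 2 := by nlinarith
    have : (M : ℝ) ^ 4 = (M : ℝ) ^ 2 * (M : ℝ) ^ 2 := by ring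
    rw [this]
    nlinarith
  have h8 : w ^ 2 * em ≤ 1 + 3 / (M : ℝ) ^ 2 := by
    have : 5 / 2 / (M : ℝ) ^ 2 + 1 / 2 / (M : ℝ) ^ 2 = 3 / (M : ℝ) ^ 2 := by ring
    rw [mul_add] at h4
    linarith
  have h9 : w ^ 2 * (4 / Real.pi ^ 2 * ((M : ℝ) ^ 10 + 3 * (M : ℝ) ^ 8)) = 1 + 3 / (M : ℝ) ^ 2 := by
    rw [hw, hNrM]
    field_simp
    ring
  rw [← h9] at h8
  exact (le_of_mul_le_mul_left h8 (by positivity)).trans hn

/-- the inequality for the sum over the large nodes -/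
lemma sum_aux {M t K N m : ℝ} (hM : 129 ≤ M) (ht : 16 ≤ t) (hK : K = M ^ 4) (hN : N = M ^ 5)
    (hm : N - m = t * K) :
    (1 + 1 / (M ^ 2 - 1)) * (2 / (2 * K + 1) - (Real.pi / (2 * N)) ^ 2 * (N - m - 1)) ≤
      2 / (2 * K + 1) - t / M ^ 6 := by
  have hM0 : 0 < M := by linarith
  have hpi := Real.pi_pos
  have hM2 : 1 < M ^ 2 := by nlinarith
  have hM4 : 1 ≤ M ^ 4 := by
    have : M ^ 4 = M ^ 2 * M ^ 2 := by ring
    rw [this]
    nlinarith
  have hNm : N - m - 1 = t * M ^ 4 - 1 := by rw [hm, hK]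
  have h7 : 0 ≤ t * M ^ 4 - 1 := by nlinarith
  rw [hNm, hK]
  have h3 : 0 ≤ (Real.pi / (2 * N)) ^ 2 * (t * M ^ 4 - 1) := mul_nonneg (by positivity) h7
  have h4 : 1 / (M ^ 2 - 1) * (2 / (2 * M ^ 4 + 1)) ≤ 2 / M ^ 6 := by
    rw [div_mul_div_comm, one_mul,
      div_le_div_iff₀ (mul_pos (by linarith) (by positivity)) (by positivity)]
    have hM2' : 2 ≤ M ^ 2 := by nlinarith
    have h2M : 2 * M ^ 4 ≤ M ^ 2 * M ^ 4 := mul_le_mul_of_nonneg_right hM2' (by positivity)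
    have e1 : 2 * ((M ^ 2 - 1) * (2 * M ^ 4 + 1)) =
        4 * (M ^ 2 * M ^ 4) - 4 * M ^ 4 + 2 * M ^ 2 - 2 := by ring
    have e2 : 2 * M ^ 6 = 2 * (M ^ 2 * M ^ 4) := by ring
    rw [e1, e2]
    linarith
  have h5 : (2 * t * M ^ 4 - 2) / M ^ 10 ≤ (Real.pi / (2 * N)) ^ 2 * (t * M ^ 4 - 1) := by
    rw [hN, div_pow, div_mul_eq_mul_div, div_le_div_iff₀ (by positivity) (by positivity)]
    have h6 := le_pi_sq
    have h9 : 8 * (t * M ^ 4 - 1) ≤ Real.pi ^ 2 * (t * M ^ 4 - 1) :=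
      mul_le_mul_of_nonneg_right (by linarith) h7
    have h10 : 0 < M ^ 10 := by positivity
    calc (2 * t * M ^ 4 - 2) * (2 * M ^ 5) ^ 2
        = (8 * (t * M ^ 4 - 1)) * M ^ 10 := by ring
      _ ≤ _ := mul_le_mul_of_nonneg_right h9 h10.le
  have h6 : t / M ^ 6 + 2 / M ^ 6 ≤ (2 * t * M ^ 4 - 2) / M ^ 10 := by
    rw [← add_div, div_le_div_iff₀ (by positivity) (by positivity)]
    have h9 : 0 < M ^ 6 := by positivity
    have h10 : (t + 2) * M ^ 4 ≤ 2 * t * M ^ 4 - 2 := by nlinarith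
    calc (t + 2) * M ^ 10 = ((t + 2) * M ^ 4) * M ^ 6 := by ring
      _ ≤ _ := mul_le_mul_of_nonneg_right h10 h9.le
  have h8 : 0 ≤ 1 / (M ^ 2 - 1) * ((Real.pi / (2 * N)) ^ 2 * (t * M ^ 4 - 1)) := by
    apply mul_nonneg _ h3
    have : 0 < M ^ 2 - 1 := by linarith
    positivity
  have h9 : (1 + 1 / (M ^ 2 - 1)) * (2 / (2 * M ^ 4 + 1) - (Real.pi / (2 * N)) ^ 2 * (t * M ^ 4 - 1)) =
      2 / (2 * M ^ 4 + 1) - (Real.pi / (2 * N)) ^ 2 * (t * M ^ 4 - 1) +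
        1 / (M ^ 2 - 1) * (2 / (2 * M ^ 4 + 1)) -
        1 / (M ^ 2 - 1) * ((Real.pi / (2 * N)) ^ 2 * (t * M ^ 4 - 1)) := by ring
  rw [h9]
  linarith

lemma term_aux {M I e x w : ℝ} (hM : 129 ≤ M) (hI : 0 < I) (he : M ^ 2 * I ^ 2 < e) (hx : 0 < x)
    (hxe : x ≤ w ^ 2 * e) :
    1 / (e - I ^ 2) ≤ (1 + 1 / (M ^ 2 - 1)) * (w ^ 2 * (1 / x)) := by
  have hM2 : 1 < M ^ 2 := by nlinarith
  have hI2 : 0 < I ^ 2 := by positivity
  have he0 : 0 < e := by nlinarith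
  have hd : 0 < e - I ^ 2 := by nlinarith
  have hM3 : 0 < M ^ 2 - 1 := by linarith
  have h2 : 1 / (e - I ^ 2) ≤ (1 + 1 / (M ^ 2 - 1)) * (1 / e) := by
    have h3 : (1 + 1 / (M ^ 2 - 1)) * (1 / e) = M ^ 2 / ((M ^ 2 - 1) * e) := by
      field_simp
      ring
    rw [h3, div_le_div_iff₀ hd (mul_pos hM3 he0)]
    nlinarith
  refine h2.trans ?_
  apply mul_le_mul_of_nonneg_left _ (by positivity)
  rw [mul_one_div, div_le_div_iff₀ he0 hx]
  linarith

/-- abstract version: nodes with all the properties give the polynomial -/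
theorem poly_of_params {N K I m n t M : ℕ} (hM : 129 ≤ M) (hN : N = M ^ 5) (hK : K = M ^ 4)
    (hI : I = M ^ 3) (ht : t = 16 * (Nat.log 2 M + 1)) (hm : m = N - t * K)
    (hn : 4 / Real.pi ^ 2 * ((M : ℝ) ^ 10 + 3 * (M : ℝ) ^ 8) ≤ (n : ℝ) + 1) :
    ∃ p : ℝ[X], p.natDegree ≤ n ∧ p.coeff 0 = 1 ∧ (∀ j, |p.coeff j| ≤ 1) ∧
      (X - 1) ^ (m - 1) ∣ p := by
  -- natural number facts
  have htM : t + 1 ≤ M := by rw [ht]; exact log_bound hM
  have ht16 : 16 ≤ t := by omega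
  have hMr : (129 : ℝ) ≤ M := by exact_mod_cast hM
  have hNK : N = M * K := by rw [hN, hK]; ring
  have hKI : K = M * I := by rw [hK, hI]; ring
  have hI2 : 2 ≤ I := by
    rw [hI]
    calc 2 ≤ M := by omega
      _ = M ^ 1 := (pow_one M).symm
      _ ≤ M ^ 3 := Nat.pow_le_pow_right (by omega) (by norm_num)
  have hK1 : 1 ≤ K := by rw [hK]; exact Nat.one_le_pow _ _ (by omega)
  have hIK : I ≤ K := by rw [hKI]; exact Nat.le_mul_of_pos_left _ (by omega)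
  have htK : t * K + K ≤ N := by
    rw [hNK]
    nlinarith
  have hmN : m + t * K = N := by omega
  have hKm : K ≤ m := by omega
  have htK1 : 16 ≤ t * K := by nlinarith
  have hmlt : m < N := by omega
  have hN1 : 1 ≤ N := by omega
  obtain ⟨e, he1, he2, he3, he4, he5⟩ := exists_nodes N K m hK1 hKm hmlt
  have he0 : e 0 = 0 := by
    have := he1 0 (by omega)
    simpa using this
  -- real parameters
  have hNr : (0 : ℝ) < N := by exact_mod_cast hN1
  have hKr : (0 : ℝ) < K := by exact_mod_cast hK1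
  have hNrM : (N : ℝ) = (M : ℝ) ^ 5 := by rw [hN]; push_cast; ring
  have hKrM : (K : ℝ) = (M : ℝ) ^ 4 := by rw [hK]; push_cast; ring
  have hIrM : (I : ℝ) = (M : ℝ) ^ 3 := by rw [hI]; push_cast; ring
  have hmr : (N : ℝ) - m = t * K := by
    have : ((m + t * K : ℕ) : ℝ) = N := by exact_mod_cast hmN
    push_cast at this
    linarith
  have htr : (16 : ℝ) ≤ t := by exact_mod_cast ht16
  have hsum := sum_inv_xs N K m hK1 hKm hmlt
  -- degree
  have hdeg : e m ≤ n + 1 := by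
    have h := deg_bound hM hN hK hmlt hn he4 hsum
    exact_mod_cast h
  -- positivity of e
  have hepos : ∀ l, 1 ≤ l → l ≤ m → (0 : ℝ) < e l := by
    intro l hl hlm
    have h := nodes_lt he2 (show 0 < l from hl) hlm
    have : 0 < e l := by omega
    exact_mod_cast this
  have hebig : ∀ l, K < l → l ≤ m → (K : ℝ) ^ 2 < e l := by
    intro l hl hlm
    have h := nodes_lt he2 hl hlm
    rw [he1 K le_rfl] at h
    have : ((K ^ 2 : ℕ) : ℝ) < e l := by exact_mod_cast h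
    push_cast at this
    exact this
  -- small indices
  have hS : ∑ l ∈ Ioc K m, 1 / ((e l : ℝ) - (I : ℝ) ^ 2) ≤ 2 / (2 * K + 1) - (t : ℝ) / (M : ℝ) ^ 6 := by
    have h1 : ∑ l ∈ Ioc K m, 1 / ((e l : ℝ) - (I : ℝ) ^ 2) ≤
        (1 + 1 / ((M : ℝ) ^ 2 - 1)) * ((Real.pi / (2 * N)) ^ 2 * ∑ l ∈ Ioc K m, 1 / xs N l) := by
      rw [mul_sum, mul_sum]
      apply sum_le_sum
      intro l hl
      rw [mem_Ioc] at hl
      refine term_aux hMr ?_ ?_ (xs_pos (by omega) (by omega)) (he5 l (by omega) hl.2)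
      · rw [hIrM]; positivity
      · refine lt_of_eq_of_lt ?_ (hebig l hl.1 hl.2)
        rw [hIrM, hKrM]
        ring
    have h2 : (1 + 1 / ((M : ℝ) ^ 2 - 1)) * ((Real.pi / (2 * N)) ^ 2 * ∑ l ∈ Ioc K m, 1 / xs N l) ≤
        (1 + 1 / ((M : ℝ) ^ 2 - 1)) * (2 / (2 * K + 1) - (Real.pi / (2 * N)) ^ 2 * (N - m - 1)) := by
      apply mul_le_mul_of_nonneg_left hsum
      have : 0 < (M : ℝ) ^ 2 - 1 := by nlinarith
      positivity
    exact h1.trans (h2.trans (sum_aux hMr htr hKrM hNrM hmr))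
  have hF := cabs_small (K := K) (m := m) (I := I) (μ := (t : ℝ) / (M : ℝ) ^ 6)
    (fun l => (e l : ℝ)) hK1 hKm (by omega) hIK
    (by
      intro l hl
      simp only [he1 l hl]
      push_cast
      ring)
    hebig hS
  obtain ⟨hF1, hF2, hF3⟩ := hF
  generalize hμ : (t : ℝ) / (M : ℝ) ^ 6 = μ at hF1 hF3
  have hcn : ∀ j, 0 ≤ cabs (fun l => (e l : ℝ)) m j := by
    intro j
    unfold cabs
    apply prod_nonneg
    intro l _
    positivity
  have htail : ∀ j, 1 ≤ j → j ≤ m → cabs (fun l => (e l : ℝ)) m j ≤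
      2 * Real.exp (-(((j : ℝ) / N) ^ 2 * (N - m))) := by
    intro j hj hjm
    refine (cabs_le_of_ratio (fun l => (e l : ℝ)) (xs N) hj hjm hepos ?_ ?_ ?_).trans
      (cabs_xs_trunc hj hjm hmlt)
    · intro l hl hlm
      exact xs_pos hl (by omega)
    · intro l l' hl hll' hl'm
      exact xs_lt hll' (by omega)
    · intro l l' hl hll' hl'm
      exact he3 l l' hl hll'.le hl'm
  have hμ0 : 0 < μ := by rw [← hμ]; positivity
  have hμ1 : μ ≤ 1 := by
    rw [← hμ, div_le_one (by positivity)]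
    have h1 : (t : ℝ) ≤ M := by exact_mod_cast (by omega : t ≤ M)
    refine h1.trans ?_
    exact le_self_pow₀ (by linarith) (by norm_num)
  have hM16 : (M : ℝ) ^ 16 ≤ Real.exp t := by
    have h1 : M ≤ 2 ^ (Nat.log 2 M + 1) := (Nat.lt_pow_succ_log_self (by norm_num) M).le
    have h2 : (M : ℝ) ≤ 2 ^ (Nat.log 2 M + 1) := by exact_mod_cast h1
    have h3 : (2 : ℝ) ≤ Real.exp 1 := by
      have := Real.add_one_le_exp (1 : ℝ)
      linarith
    calc (M : ℝ) ^ 16 ≤ ((2 : ℝ) ^ (Nat.log 2 M + 1)) ^ 16 := pow_le_pow_left₀ (by positivity) h2 16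
      _ = 2 ^ t := by rw [← pow_mul, ht, mul_comm]
      _ ≤ Real.exp 1 ^ t := pow_le_pow_left₀ (by norm_num) h3 t
      _ = Real.exp t := by rw [← Real.exp_nat_mul, mul_one]
  have hs : ∀ i ≤ m, |∑ j ∈ range (i + 1), (-1 : ℝ) ^ j * cabs (fun l => (e l : ℝ)) m j| ≤ 1 := by
    apply partial_sums (I := I) (τ := μ / 2) _ hI2 (hIK.trans hKm)
    · unfold cabs
      apply prod_eq_one
      intro l hl
      simp only [mem_erase, mem_Icc] at hl
      have := hepos l hl.2.1 hl.2.2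
      simp only [he0, Nat.cast_zero, sub_zero, abs_of_pos this, div_self this.ne']
    · exact hcn
    · have := exp_neg_le hμ0.le hμ1
      linarith
    · have h1 := hF3 1 le_rfl (by omega)
      have h2 : Real.exp (-((2 * ((1 : ℕ) : ℝ) + 1) * μ)) ≤ Real.exp (-μ) := by
        apply Real.exp_le_exp.2
        push_cast
        linarith
      have h3 := exp_neg_le hμ0.le hμ1
      have h4 : cabs (fun l => (e l : ℝ)) m 1 * Real.exp (-((2 * ((1 : ℕ) : ℝ) + 1) * μ)) ≤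
          cabs (fun l => (e l : ℝ)) m 1 * (1 - μ / 2) :=
        mul_le_mul_of_nonneg_left (h2.trans h3) (hcn 1)
      nlinarith
    · intro i hi hiI
      have h1 := hF3 i hi hiI
      have h2 : Real.exp (-((2 * (i : ℝ) + 1) * μ)) ≤ 1 := by
        rw [Real.exp_le_one_iff]
        have : 0 ≤ (2 * (i : ℝ) + 1) * μ := by positivity
        linarith
      refine h1.trans ?_
      exact mul_le_of_le_one_right (hcn i) h2
    · have h1 : ∀ j ∈ Ioc I m, cabs (fun l => (e l : ℝ)) m j ≤ 2 / (M : ℝ) ^ 16 := by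
        intro j hj
        rw [mem_Ioc] at hj
        refine (htail j (by omega) hj.2).trans ?_
        have h2 : (t : ℝ) ≤ ((j : ℝ) / N) ^ 2 * (N - m) := by
          rw [hmr]
          have h4 : ((I : ℝ) / N) ^ 2 ≤ ((j : ℝ) / N) ^ 2 := by
            apply pow_le_pow_left₀ (by positivity)
            apply div_le_div_of_nonneg_right _ hNr.le
            exact_mod_cast hj.1.le
          have h5 : ((I : ℝ) / N) ^ 2 * (t * K) = t := by
            rw [hIrM, hNrM, hKrM]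
            field_simp
          calc (t : ℝ) = ((I : ℝ) / N) ^ 2 * (t * K) := h5.symm
            _ ≤ _ := mul_le_mul_of_nonneg_right h4 (by positivity)
        have h3 : Real.exp (-(((j : ℝ) / N) ^ 2 * (N - m))) ≤ Real.exp (-t) :=
          Real.exp_le_exp.2 (by linarith)
        have h4 : Real.exp (-(t : ℝ)) ≤ 1 / (M : ℝ) ^ 16 := by
          rw [Real.exp_neg, ← one_div]
          exact one_div_le_one_div_of_le (by positivity) hM16
        calc 2 * Real.exp (-(((j : ℝ) / N) ^ 2 * (N - m))) ≤ 2 * (1 / (M : ℝ) ^ 16) := by linarith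
          _ = 2 / (M : ℝ) ^ 16 := by ring
      calc ∑ j ∈ Ioc I m, cabs (fun l => (e l : ℝ)) m j ≤ ∑ j ∈ Ioc I m, 2 / (M : ℝ) ^ 16 := sum_le_sum h1
        _ = ((m - I : ℕ) : ℝ) * (2 / (M : ℝ) ^ 16) := by rw [sum_const, Nat.card_Ioc, nsmul_eq_mul]
        _ ≤ (M : ℝ) ^ 5 * (2 / (M : ℝ) ^ 16) := by
            apply mul_le_mul_of_nonneg_right _ (by positivity)
            rw [← hNrM]
            exact_mod_cast (by omega : m - I ≤ N)
        _ ≤ μ / 2 := by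
            rw [← hμ, mul_div_assoc', div_div, div_le_div_iff₀ (by positivity) (by positivity)]
            have h5 : (M : ℝ) ^ 5 * 2 * ((M : ℝ) ^ 6 * 2) = 4 * (M : ℝ) ^ 11 := by ring
            have h6 : (4 : ℝ) * (M : ℝ) ^ 11 ≤ t * (M : ℝ) ^ 16 := by
              have h7 : (M : ℝ) ^ 11 ≤ (M : ℝ) ^ 16 := pow_le_pow_right₀ (by linarith) (by norm_num)
              have h8 : (0 : ℝ) < (M : ℝ) ^ 16 := by positivity
              nlinarith
            rw [h5]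
            exact h6
  exact poly_of_nodes m n (by omega) e he0 he2 hdeg (fun i hi => hs i hi.le)

end Pool.Agent.H30S
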