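import Mathlib

/-!
# Nodes for the sharp constant in the order of vanishing at `1`

`cabs v m i = ∏_{1 ≤ l ≤ m, l ≠ i} v l / |v l - v i|` are the absolute values of the coefficients (normalised
by `c 0 = 1`) of the divided difference with nodes `0 = v 0 < v 1 < ... < v m`; `xs N i` are the
Chebyshev nodes `sin² (π i / 2N)`.
-/

set_option autoImplicit false

open Finset

namespace Pool.Agent.H30S

/-- `∏_{1 ≤ l ≤ m, l ≠ i} v l / |v l - v i|` -/
noncomputable def cabs (v : ℕ → ℝ) (m i : ℕ) : ℝ :=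
  ∏ l ∈ (Icc 1 m).erase i, v l / |v l - v i|

/-- the Chebyshev nodes `sin² (π i / 2N)` -/
noncomputable def xs (N i : ℕ) : ℝ := Real.sin (Real.pi * i / (2 * N)) ^ 2

end Pool.Agent.H30S
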