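import Pool.Agent.H30S.Defs

/-!
# Extreme points of the cube of coefficients
-/

set_option autoImplicit false

open Finset Polynomial

namespace Pool.Agent.H30S

namespace Vx

/-- the indices of the interior coefficients -/
noncomputable def int (n : ℕ) (p : ℝ[X]) : Finset ℕ := (range (n + 1)).filter (fun j => |p.coeff j| < 1)

theorem mem_int {n : ℕ} {p : ℝ[X]} {j : ℕ} : j ∈ int n p ↔ j ≤ n ∧ |p.coeff j| < 1 := by
  unfold int
  rw [mem_filter, mem_range, Nat.lt_succ_iff]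

/-- a combination of the binomial conditions -/
theorem exists_ker (I : Finset ℕ) (k : ℕ) (h : k < #I) :
    ∃ v : ℕ → ℝ, (∀ j, j ∉ I → v j = 0) ∧ (∃ j ∈ I, v j ≠ 0) ∧
      ∀ i < k, ∑ j ∈ I, v j * ((j.choose i : ℕ) : ℝ) = 0 := by
  classical
  let L : (I → ℝ) →ₗ[ℝ] (Fin k → ℝ) :=
    { toFun := fun u i => ∑ j : I, u j * (((j : ℕ).choose i : ℕ) : ℝ)
      map_add' := by
        intro u v
        funext i
        simp only [Pi.add_apply, add_mul, sum_add_distrib]
      map_smul' := by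
        intro c u
        funext i
        simp only [Pi.smul_apply, smul_eq_mul, RingHom.id_apply, mul_sum, mul_assoc] }
  have h1 : LinearMap.ker L ≠ ⊥ := by
    apply LinearMap.ker_ne_bot_of_finrank_lt
    rw [Module.finrank_fintype_fun_eq_card, Module.finrank_fintype_fun_eq_card, Fintype.card_fin,
      Fintype.card_coe]
    exact h
  obtain ⟨u, hu, hu0⟩ := Submodule.exists_mem_ne_zero_of_ne_bot h1
  rw [LinearMap.mem_ker] at hu
  obtain ⟨j0, hj0⟩ : ∃ j, u j ≠ 0 := by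
    by_contra hcon
    push Not at hcon
    exact hu0 (funext hcon)
  refine ⟨fun j => if h : j ∈ I then u ⟨j, h⟩ else 0, fun j hj => dif_neg hj, ⟨j0, j0.2, ?_⟩, ?_⟩
  · show (if h : (j0 : ℕ) ∈ I then u ⟨j0, h⟩ else 0) ≠ 0
    rw [dif_pos j0.2]
    exact hj0
  · intro i hi
    have h2 := congrFun hu ⟨i, hi⟩
    rw [← Finset.sum_coe_sort]
    refine Eq.trans (sum_congr rfl fun j _ => ?_) h2
    show (if h : (j : ℕ) ∈ I then u ⟨j, h⟩ else 0) * (((j : ℕ).choose i : ℕ) : ℝ) =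
      u j * (((j : ℕ).choose i : ℕ) : ℝ)
    rw [dif_pos j.2]

/-- a polynomial divisible by `(X - 1)^k` -/
theorem dvd_of_choose (I : Finset ℕ) (k : ℕ) (v : ℕ → ℝ)
    (h : ∀ i < k, ∑ j ∈ I, v j * ((j.choose i : ℕ) : ℝ) = 0) :
    (X - 1) ^ k ∣ ∑ j ∈ I, monomial j (v j) := by
  rw [← C_1, X_sub_C_pow_dvd_iff, ← taylor_apply, X_pow_dvd_iff]
  intro i hi
  rw [taylor_coeff, map_sum, eval_finsetSum, ← h i hi]
  refine sum_congr rfl fun j _ => ?_
  rw [hasseDeriv_monomial, eval_monomial, one_pow, mul_one, mul_comm]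

theorem coeff_sum (I : Finset ℕ) (v : ℕ → ℝ) (hv : ∀ j, j ∉ I → v j = 0) (t : ℕ) :
    (∑ j ∈ I, monomial j (v j) : ℝ[X]).coeff t = v t := by
  rw [finsetSum_coeff]
  simp only [coeff_monomial]
  rw [sum_ite_eq']
  by_cases ht : t ∈ I
  · rw [if_pos ht]
  · rw [if_neg ht, hv t ht]

/-- one more coefficient becomes `1` or `-1` -/
theorem step (n k : ℕ) (p : ℝ[X]) (hd : p.natDegree ≤ n) (h0 : p.coeff 0 = 1)
    (hc : ∀ j, |p.coeff j| ≤ 1) (hk : (X - 1) ^ k ∣ p) (hI : k < #(int n p)) :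
    ∃ q : ℝ[X], q.natDegree ≤ n ∧ q.coeff 0 = 1 ∧ (∀ j, |q.coeff j| ≤ 1) ∧ (X - 1) ^ k ∣ q ∧
      #(int n q) < #(int n p) := by
  classical
  obtain ⟨v, hv0, ⟨j1, hj1, hv1⟩, hv2⟩ := exists_ker (int n p) k hI
  set S : Finset ℕ := (int n p).filter (fun j => v j ≠ 0) with hS
  have hSne : S.Nonempty := ⟨j1, mem_filter.2 ⟨hj1, hv1⟩⟩
  -- the times of exit
  set τ : ℕ → ℝ := fun j => if 0 < v j then (1 - p.coeff j) / v j else (1 + p.coeff j) / (-v j) with hτ
  obtain ⟨j0, hj0, hmin⟩ := exists_min_image S τ hSne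
  rw [hS, mem_filter, mem_int] at hj0
  have hτp : ∀ j, 0 < v j → τ j * v j = 1 - p.coeff j := by
    intro j hj
    simp only [hτ, if_pos hj]
    field_simp
  have hτn : ∀ j, v j < 0 → τ j * v j = -(1 + p.coeff j) := by
    intro j hj
    have h1 : v j ≠ 0 := hj.ne
    simp only [hτ, if_neg (not_lt.2 hj.le)]
    rw [div_neg, neg_mul, div_mul_cancel₀ _ h1]
  have hs0 : 0 < τ j0 := by
    have h1 := abs_lt.1 hj0.1.2
    rcases lt_or_gt_of_ne hj0.2 with h2 | h2
    · simp only [hτ, if_neg (not_lt.2 h2.le)]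
      exact div_pos (by linarith) (by linarith)
    · simp only [hτ, if_pos h2]
      exact div_pos (by linarith) h2
  set s : ℝ := τ j0 with hs
  set q : ℝ[X] := p + C s * ∑ j ∈ int n p, monomial j (v j) with hq
  have hqc : ∀ t, q.coeff t = p.coeff t + s * v t := by
    intro t
    rw [hq, coeff_add, coeff_C_mul, coeff_sum _ _ hv0]
  have hbd : ∀ j, |q.coeff j| ≤ 1 := by
    intro j
    by_cases hj : v j = 0
    · rw [hqc, hj, mul_zero, add_zero]
      exact hc j
    · have hjI : j ∈ int n p := by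
        by_contra hcon
        exact hj (hv0 j hcon)
      have h1 : s ≤ τ j := hmin j (mem_filter.2 ⟨hjI, hj⟩)
      have h2 := abs_le.1 (hc j)
      rw [hqc, abs_le]
      rcases lt_or_gt_of_ne hj with h3 | h3
      · have h4 : τ j * v j ≤ s * v j := mul_le_mul_of_nonpos_right h1 h3.le
        rw [hτn j h3] at h4
        have h5 : s * v j ≤ 0 := mul_nonpos_of_nonneg_of_nonpos hs0.le h3.le
        constructor <;> linarith
      · have h4 : s * v j ≤ τ j * v j := mul_le_mul_of_nonneg_right h1 h3.le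
        rw [hτp j h3] at h4
        have h5 : 0 ≤ s * v j := mul_nonneg hs0.le h3.le
        constructor <;> linarith
  have hone : |q.coeff j0| = 1 := by
    rw [hqc]
    rcases lt_or_gt_of_ne hj0.2 with h3 | h3
    · rw [hs, hτn j0 h3, show p.coeff j0 + -(1 + p.coeff j0) = -1 by ring, abs_neg, abs_one]
    · rw [hs, hτp j0 h3, show p.coeff j0 + (1 - p.coeff j0) = 1 by ring, abs_one]
  refine ⟨q, ?_, ?_, hbd, ?_, ?_⟩
  · rw [natDegree_le_iff_coeff_eq_zero]
    intro N hN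
    have h1 : N ∉ int n p := by
      rw [mem_int]
      omega
    rw [hqc, hv0 N h1, mul_zero, add_zero]
    exact coeff_eq_zero_of_natDegree_lt (by omega)
  · have h1 : 0 ∉ int n p := by
      rw [mem_int, h0, abs_one]
      rintro ⟨-, h⟩
      exact lt_irrefl _ h
    rw [hqc, hv0 0 h1, mul_zero, add_zero, h0]
  · rw [hq]
    exact dvd_add hk (Dvd.dvd.mul_left (dvd_of_choose _ _ _ hv2) _)
  · apply card_lt_card
    rw [ssubset_iff_of_subset]
    · refine ⟨j0, mem_int.2 hj0.1, ?_⟩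
      rw [mem_int, hone]
      rintro ⟨-, h⟩
      exact lt_irrefl _ h
    · intro j hj
      rw [mem_int] at hj
      by_contra hcon
      rw [hqc, hv0 j hcon, mul_zero, add_zero] at hj
      exact hcon (mem_int.2 hj)

end Vx

open Vx

/-- MODULE X (extreme points). -/
theorem exists_vertex (n k : ℕ) (p : ℝ[X]) (hd : p.natDegree ≤ n) (h0 : p.coeff 0 = 1)
    (hc : ∀ j, |p.coeff j| ≤ 1) (hk : (X - 1) ^ k ∣ p) :
    ∃ q : ℝ[X], q.natDegree ≤ n ∧ q.coeff 0 = 1 ∧ (∀ j, |q.coeff j| ≤ 1) ∧ (X - 1) ^ k ∣ q ∧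
      ((range (n + 1)).filter (fun j => |q.coeff j| < 1)).card ≤ k := by
  have key : ∀ N : ℕ, ∀ p : ℝ[X], p.natDegree ≤ n → p.coeff 0 = 1 → (∀ j, |p.coeff j| ≤ 1) →
      (X - 1) ^ k ∣ p → #(int n p) = N → ∃ q : ℝ[X], q.natDegree ≤ n ∧ q.coeff 0 = 1 ∧
        (∀ j, |q.coeff j| ≤ 1) ∧ (X - 1) ^ k ∣ q ∧ #(int n q) ≤ k := by
    intro N
    induction N using Nat.strong_induction_on with
    | _ N ih =>
      intro p hd h0 hc hk hN
      rcases le_or_gt (#(int n p)) k with h | h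
      · exact ⟨p, hd, h0, hc, hk, h⟩
      · obtain ⟨q, h1, h2, h3, h4, h5⟩ := step n k p hd h0 hc hk h
        exact ih _ (by omega) q h1 h2 h3 h4 rfl
  exact key _ p hd h0 hc hk rfl

end Pool.Agent.H30S
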