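import Pool.Agent.H30S.Core
import Pool.Agent.H30S.Choice
import Pool.Agent.H30S.Vertex

set_option autoImplicit false

open Finset Polynomial

namespace Pool.Agent.H30S

/-- the lower bound for real coefficients, with almost all coefficients `1` or `-1` -/
theorem lower_real (n : ℕ) (hn : 1 ≤ n) :
    ∃ p : ℝ[X], p.natDegree ≤ n ∧ p.coeff 0 = 1 ∧ (∀ j, |p.coeff j| ≤ 1) ∧
      ((range (n + 1)).filter (fun j => |p.coeff j| < 1)).card ≤ p.rootMultiplicity 1 ∧
      Real.pi / 2 * √(n : ℝ) - 300 * (n : ℝ) ^ (2 / 5 : ℝ) * Real.log (n + 1) ≤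
        (p.rootMultiplicity 1 : ℝ) := by
  obtain ⟨k, ⟨p, hp1, hp2, hp3, hp4⟩, hk⟩ := choice n hn
    (fun k => ∃ p : ℝ[X], p.natDegree ≤ n ∧ p.coeff 0 = 1 ∧ (∀ j, |p.coeff j| ≤ 1) ∧
      (X - 1) ^ k ∣ p)
    (by
      refine ⟨1, by simp, by simp, ?_, by simp⟩
      intro j
      rw [coeff_one]
      split_ifs <;> simp)
    (by
      intro M hM hMn
      exact poly_of_params hM rfl rfl rfl rfl rfl hMn)
  obtain ⟨q, hq1, hq2, hq3, hq4, hq5⟩ := exists_vertex n k p hp1 hp2 hp3 hp4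
  have hq0 : q ≠ 0 := by
    rintro rfl
    simp at hq2
  have hmul : k ≤ q.rootMultiplicity 1 := by
    rw [le_rootMultiplicity_iff hq0]
    simpa using hq4
  exact ⟨q, hq1, hq2, hq3, hq5.trans hmul, hk.trans (by exact_mod_cast hmul)⟩

end Pool.Agent.H30S
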