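import Pool.Agent.H30S.Defs

set_option autoImplicit false

open Finset

namespace Pool.Agent.H30S

/-- the zeros of the Chebyshev polynomial of the second kind -/
noncomputable def tz (n k : ℕ) : ℝ := Real.cos (((k : ℝ) + 1) * Real.pi / ((n : ℝ) + 1))

theorem tz_injOn (n : ℕ) : Set.InjOn (tz n) (range (n + 1) : Set ℕ) := by
  intro a ha b hb hab
  have ha' : a < n + 1 := mem_range.1 (mem_coe.1 ha)
  have hb' : b < n + 1 := mem_range.1 (mem_coe.1 hb)
  have hn : (0 : ℝ) < (n : ℝ) + 1 := by positivity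
  have hpi := Real.pi_pos
  have key : ∀ c : ℕ, c < n + 1 → ((c : ℝ) + 1) * Real.pi / ((n : ℝ) + 1) ∈ Set.Icc 0 Real.pi := by
    intro c hc
    have hc1 : (c : ℝ) + 1 ≤ (n : ℝ) + 1 := by exact_mod_cast hc
    refine ⟨by positivity, ?_⟩
    rw [div_le_iff₀ hn]
    nlinarith
  have h1 := Real.injOn_cos (key a ha') (key b hb') hab
  have h2 : ((a : ℝ) + 1) * Real.pi = ((b : ℝ) + 1) * Real.pi := by
    rw [div_eq_div_iff hn.ne' hn.ne'] at h1
    exact mul_right_cancel₀ hn.ne' h1
  have h3 : (a : ℝ) + 1 = (b : ℝ) + 1 := mul_right_cancel₀ hpi.ne' h2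
  exact_mod_cast add_right_cancel h3

theorem U_eq_nodal (n : ℕ) : Polynomial.Chebyshev.U ℝ (n : ℤ) =
    Polynomial.C (Polynomial.Chebyshev.U ℝ (n : ℤ)).leadingCoeff * Lagrange.nodal (range n) (tz n) := by
  have hinj : Set.InjOn (tz n) (range n : Set ℕ) := (tz_injOn n).mono (by
    intro x hx
    have h1 : x < n := mem_range.1 (mem_coe.1 hx)
    exact mem_coe.2 (mem_range.2 (by omega)))
  have hr : (Polynomial.Chebyshev.U ℝ (n : ℤ)).roots = ((range n).image (tz n)).val :=
    Polynomial.Chebyshev.roots_U_real n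
  have hc : Multiset.card (Polynomial.Chebyshev.U ℝ (n : ℤ)).roots = (Polynomial.Chebyshev.U ℝ (n : ℤ)).natDegree := by
    rw [hr, Polynomial.Chebyshev.natDegree_U_natCast]
    have h1 : ((range n).image (tz n)).card = n := by
      rw [card_image_of_injOn hinj, card_range]
    exact h1
  have h2 := Polynomial.C_leadingCoeff_mul_prod_multiset_X_sub_C hc
  have h3 : ((Polynomial.Chebyshev.U ℝ (n : ℤ)).roots.map fun a => Polynomial.X - Polynomial.C a).prod =
      Lagrange.nodal (range n) (tz n) := by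
    rw [hr]
    have h4 : (((range n).image (tz n)).val.map fun a => Polynomial.X - Polynomial.C a).prod =
        ∏ a ∈ (range n).image (tz n), (Polynomial.X - Polynomial.C a : Polynomial ℝ) := rfl
    rw [h4, prod_image hinj, Lagrange.nodal_eq]
  rw [h3] at h2
  exact h2.symm

/-- MODULE B (product of sines). -/
theorem cabs_xs_full (N i : ℕ) (hi : 1 ≤ i) (hiN : i < N) : cabs (xs N) N i = 2 := by
  obtain ⟨n, rfl⟩ : ∃ n, N = n + 1 := ⟨N - 1, by omega⟩
  obtain ⟨j, rfl⟩ : ∃ j, i = j + 1 := ⟨i - 1, by omega⟩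
  have hj : j < n := by omega
  have hn : (0 : ℝ) < (n : ℝ) + 1 := by positivity
  have hxs : ∀ k, xs (n + 1) (k + 1) = (1 - tz n k) / 2 := by
    intro k
    have h1 : tz n k = Real.cos (2 * (Real.pi * ((k + 1 : ℕ) : ℝ) / (2 * ((n + 1 : ℕ) : ℝ)))) := by
      unfold tz
      congr 1
      push_cast
      field_simp
    rw [h1, Real.cos_two_mul, xs, Real.sin_sq]
    ring
  -- the derivative of `U` at the zero
  obtain ⟨P, hP⟩ : ∃ P, P = Polynomial.Chebyshev.U ℝ (n : ℤ) := ⟨_, rfl⟩
  obtain ⟨L, hL⟩ : ∃ L, L = P.leadingCoeff := ⟨_, rfl⟩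
  have hPn : P = Polynomial.C L * Lagrange.nodal (range n) (tz n) := by
    rw [hL, hP]
    exact U_eq_nodal n
  have hL0 : L ≠ 0 := by
    intro h0
    have h1 : P = 0 := by rw [hPn, h0, Polynomial.C_0, zero_mul]
    have h2 : P.eval 1 = (n : ℝ) + 1 := by
      rw [hP, Polynomial.Chebyshev.U_eval_one]
      push_cast
      ring
    rw [h1, Polynomial.eval_zero] at h2
    linarith
  have e1 : L * ∏ k ∈ range n, (1 - tz n k) = (n : ℝ) + 1 := by
    have h2 : P.eval 1 = (n : ℝ) + 1 := by
      rw [hP, Polynomial.Chebyshev.U_eval_one]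
      push_cast
      ring
    rw [hPn, Polynomial.eval_mul, Polynomial.eval_C, Lagrange.eval_nodal] at h2
    exact h2
  have hroot : P.eval (tz n j) = 0 := by
    rw [hPn, Polynomial.eval_mul, Lagrange.eval_nodal_at_node (mem_range.2 hj), mul_zero]
  have e2 : (1 - tz n j ^ 2) * (L * ∏ k ∈ (range n).erase j, (tz n j - tz n k)) =
      - (((n : ℝ) + 1) * Real.cos (((j : ℝ) + 1) * Real.pi)) := by
    have h1 := congrArg (Polynomial.eval (tz n j)) (Polynomial.Chebyshev.add_one_mul_T_eq_poly_in_U (R := ℝ) (n : ℤ))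
    have h2 : (Polynomial.Chebyshev.T ℝ ((n : ℤ) + 1)).eval (tz n j) = Real.cos (((j : ℝ) + 1) * Real.pi) := by
      unfold tz
      rw [Polynomial.Chebyshev.T_real_cos]
      congr 1
      push_cast
      field_simp
    have h3 : (Polynomial.derivative P).eval (tz n j) = L * ∏ k ∈ (range n).erase j, (tz n j - tz n k) := by
      rw [hPn, Polynomial.derivative_C_mul, Polynomial.eval_mul, Polynomial.eval_C,
        Lagrange.eval_nodal_derivative_eval_node_eq (mem_range.2 hj), Lagrange.eval_nodal]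
    rw [← hP] at h1
    simp only [Polynomial.eval_mul, Polynomial.eval_add, Polynomial.eval_sub, Polynomial.eval_pow,
      Polynomial.eval_X, Polynomial.eval_one, hroot, h2, h3, Int.cast_natCast,
      Polynomial.eval_natCast] at h1
    linarith
  -- the product
  have hset : (Icc 1 (n + 1)).erase (j + 1) = ((insert n ((range n).erase j)).image (fun k => k + 1)) := by
    ext x
    rw [mem_erase, mem_Icc, mem_image]
    constructor
    · rintro ⟨h1, h2, h3⟩
      refine ⟨x - 1, ?_, by omega⟩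
      rw [mem_insert, mem_erase, mem_range]
      omega
    · rintro ⟨k, hk, rfl⟩
      rw [mem_insert, mem_erase, mem_range] at hk
      omega
  have hterm : ∀ k, xs (n + 1) (k + 1) / |xs (n + 1) (k + 1) - xs (n + 1) (j + 1)| =
      (1 - tz n k) / |tz n j - tz n k| := by
    intro k
    rw [hxs, hxs]
    have h1 : (1 - tz n k) / 2 - (1 - tz n j) / 2 = (tz n j - tz n k) / 2 := by ring
    rw [h1, abs_div, abs_two, div_div_div_cancel_right₀ (by norm_num : (2 : ℝ) ≠ 0)]
  have hnn : tz n n = -1 := by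
    unfold tz
    rw [mul_div_assoc, mul_comm, div_mul_cancel₀ _ hn.ne', Real.cos_pi]
  have hcabs : cabs (xs (n + 1)) (n + 1) (j + 1) =
      (2 / |tz n j + 1|) * ∏ k ∈ (range n).erase j, (1 - tz n k) / |tz n j - tz n k| := by
    unfold cabs
    rw [hset, prod_image (fun a _ b _ h => by simpa using h), prod_congr rfl (fun k _ => hterm k), prod_insert (by
      rw [mem_erase, mem_range]
      omega), hnn]
    norm_num
  rw [hcabs, prod_div_distrib, ← abs_prod]
  obtain ⟨A, hA⟩ : ∃ A, A = ∏ k ∈ (range n).erase j, (1 - tz n k) := ⟨_, rfl⟩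
  obtain ⟨B, hB⟩ : ∃ B, B = ∏ k ∈ (range n).erase j, (tz n j - tz n k) := ⟨_, rfl⟩
  rw [← hA, ← hB]
  rw [← hB] at e2
  rw [← mul_prod_erase _ _ (mem_range.2 hj), ← hA] at e1
  have hcos : |Real.cos (((j : ℝ) + 1) * Real.pi)| = 1 := by
    have h1 : Real.cos (((j : ℝ) + 1) * Real.pi) = (-1) ^ (j + 1) := by
      have h2 := Real.cos_nat_mul_pi (j + 1)
      push_cast at h2
      exact h2
    rw [h1, abs_pow, abs_neg, abs_one, one_pow]
  have ht1 : tz n j < 1 := by
    by_contra hc
    have hc2 : 1 - tz n j ≤ 0 := by linarith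
    have h3 : tz n j = 1 := le_antisymm (Real.cos_le_one _) (by linarith)
    rw [h3] at e1
    have : (0 : ℝ) = n + 1 := by
      rw [← e1]
      ring
    linarith
  have ht2 : -1 < tz n j := by
    rcases lt_or_eq_of_le (Real.neg_one_le_cos (((j : ℝ) + 1) * Real.pi / ((n : ℝ) + 1))) with h1 | h1
    · exact h1
    · exfalso
      have h3 : tz n j = -1 := h1.symm
      rw [h3] at e2
      have h4 : ((n : ℝ) + 1) * Real.cos (((j : ℝ) + 1) * Real.pi) = 0 := by
        have h5 : (1 - (-1 : ℝ) ^ 2) * (L * B) = 0 := by norm_num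
        rw [h5] at e2
        linarith
      rcases mul_eq_zero.1 h4 with h5 | h5
      · exact hn.ne' h5
      · rw [h5, abs_zero] at hcos
        exact zero_ne_one hcos
  have hLpos : 0 < L := by
    rw [hL, hP, Polynomial.Chebyshev.leadingCoeff_U_natCast]
    positivity
  have e3 : (1 - tz n j ^ 2) * (L * |B|) = (n : ℝ) + 1 := by
    have h1 := congrArg abs e2
    rw [abs_neg, abs_mul, abs_mul, abs_mul, hcos, mul_one, abs_of_pos hn, abs_of_pos hLpos,
      abs_of_pos (by nlinarith : 0 < 1 - tz n j ^ 2)] at h1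
    exact h1
  have hB0 : |B| ≠ 0 := by
    intro h0
    rw [h0, mul_zero, mul_zero] at e3
    linarith
  rw [abs_of_pos (by linarith : 0 < tz n j + 1), div_mul_div_comm, div_eq_iff (mul_ne_zero (by linarith) hB0)]
  have h6 : (1 - tz n j) * (L * A) = (1 - tz n j) * (L * ((tz n j + 1) * |B|)) := by
    have h7 : (1 - tz n j) * (L * A) = L * ((1 - tz n j) * A) := by ring
    rw [h7, e1, ← e3]
    ring
  have h8 := mul_left_cancel₀ (by linarith : (1 - tz n j) ≠ 0) h6
  have h9 := mul_left_cancel₀ hL0 h8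
  rw [h9]

end Pool.Agent.H30S
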